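import Pool.Agent.U226.SR.Main

/-!
# The share of the classes of cycles in the generalised Tate classes
-/

set_option autoImplicit false

open CategoryTheory AlgebraicGeometry TensorProduct

universe u v

namespace Pool.Agent.U226.SR

open Pool.Agent.H914 Pool.Agent.H914.VarClass Pool.Agent.H914.VarClass.Obj
  Pool.Agent.H914.WeilCohomology Pool.Agent.W534 Pool.Agent.TH132.P Pool.Agent.N181.Mod
  Pool.Agent.N181.Gap

variable {k : Type u} [Field k] {𝒱 : VarClass k} {ops : CycleOps 𝒱}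
  {W : WeilCohomology.{u, v} ops} {U X Y Z Z' S : 𝒱.Obj} {p : ℕ}

/-- Passage from an inequality for all powers to a square root law. -/
theorem conclude (𝒮 : ClSys W) (n : ℕ) (hF : 1 ≤ Module.finrank W.K (W.H Y)) (Z : 𝒱.Obj) (D : ℕ)
    (hgrow : ∀ J : ℕ, Module.finrank W.K (W.H Z) * Module.finrank W.K (W.H Y) ^ J ≤
      D * ((J + 1) ^ D * Module.finrank W.K (tot 𝒮.toSys (powProd Y Z J)))) (g : ℕ → ℝ)
    (hg : ∀ J a : ℕ, g J ≤ 1 / Real.sqrt (a + 1) *
      Module.finrank W.K (tot 𝒮.toSys (powProd Y Z J)) +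
      (((Module.finrank W.K (W.H Y) ^ (n + 1)) ^ a *
        (Module.finrank W.K (W.H Y) ^ (n + 1) - 1) ^ (J / (n + 1)) *
        (Module.finrank W.K (W.H Y) ^ (J % (n + 1)) * Module.finrank W.K (W.H Z)) : ℕ) : ℝ)) :
    ∃ C : ℝ, 0 ≤ C ∧ ∀ J : ℕ, g J ≤
      C / Real.sqrt (J + 1) * Module.finrank W.K (tot 𝒮.toSys (powProd Y Z J)) := by
  set m := n + 1 with hm
  set h := Module.finrank W.K (W.H Y) with hh
  have hq1 : 1 ≤ h ^ m := Nat.one_le_pow _ _ hF
  obtain ⟨N, hN, hqN⟩ := exists_N (h ^ m) hq1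
  set M := m * N with hM
  have hM0 : 0 < M := Nat.mul_pos (Nat.succ_pos n) hN
  obtain ⟨C, hC, hb⟩ := sqrt_bound hM0 D
  refine ⟨C, hC, fun J => ?_⟩
  set P := Module.finrank W.K (tot 𝒮.toSys (powProd Y Z J)) with hP
  set hz := Module.finrank W.K (W.H Z) with hhz
  set a := J / m / N with ha
  have haM : a = J / M := Nat.div_div_eq_div_mul J m N
  have herr : 2 ^ a * ((h ^ m) ^ a * (h ^ m - 1) ^ (J / m) * (h ^ (J % m) * hz)) ≤
      hz * h ^ J := by
    have h1 := pow_bound hqN (J / m)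
    calc 2 ^ a * ((h ^ m) ^ a * (h ^ m - 1) ^ (J / m) * (h ^ (J % m) * hz))
        = (2 ^ a * ((h ^ m) ^ a * (h ^ m - 1) ^ (J / m))) * (h ^ (J % m) * hz) := by ring
      _ ≤ (h ^ m) ^ (J / m) * (h ^ (J % m) * hz) := Nat.mul_le_mul_right _ h1
      _ = hz * h ^ J := by
          rw [← pow_mul, ← mul_assoc, ← pow_add, Nat.div_add_mod, mul_comm]
  have herr2 : (((h ^ m) ^ a * (h ^ m - 1) ^ (J / m) * (h ^ (J % m) * hz) : ℕ) : ℝ) ≤
      (D : ℝ) * (((J : ℝ) + 1) ^ D / 2 ^ a) * P := by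
    have h1 := herr.trans (hgrow J)
    have h2 : (2 : ℝ) ^ a * (((h ^ m) ^ a * (h ^ m - 1) ^ (J / m) * (h ^ (J % m) * hz) : ℕ) : ℝ) ≤
        D * (((J : ℝ) + 1) ^ D * P) := by exact_mod_cast h1
    have h3 : (0 : ℝ) < 2 ^ a := by positivity
    rw [mul_comm, ← le_div_iff₀ h3] at h2
    refine h2.trans (le_of_eq ?_)
    ring
  have hbJ := hb J
  rw [← haM] at hbJ
  have hgap := hg J a
  calc g J ≤ 1 / Real.sqrt (a + 1) * P +
        (((h ^ m) ^ a * (h ^ m - 1) ^ (J / m) * (h ^ (J % m) * hz) : ℕ) : ℝ) := hgap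
    _ ≤ 1 / Real.sqrt (a + 1) * P + (D : ℝ) * (((J : ℝ) + 1) ^ D / 2 ^ a) * P := by linarith
    _ = (1 / Real.sqrt (a + 1) + (D : ℝ) * (((J : ℝ) + 1) ^ D / 2 ^ a)) * P := by ring
    _ ≤ C / Real.sqrt (J + 1) * P := mul_le_mul_of_nonneg_right hbJ (by positivity)

/-- The algebraic classes and the numerical rank. -/
lemma two_mul_alg_le (𝒮 : ClSys W) (X : 𝒱.Obj) :
    2 * Module.finrank W.K (tot (sysA W) X) ≤
      Module.finrank W.K (tot 𝒮.toSys X) + rkSum ops X := by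
  have h1 := rkSum_add (W := W) X
  have h2 := 𝒮.finrank_perp (𝒮.alg_tot X)
  have h3 : Module.finrank W.K (tot (sysN W) X) ≤ Module.finrank W.K
      (tot 𝒮.toSys X ⊓ perp (tot (sysA W) X) : Submodule W.K (W.H X)) :=
    Submodule.finrank_mono (totN_le.trans (inf_le_inf_right _ (𝒮.alg_tot X)))
  omega

/-- The first case, for the algebraic classes. -/
theorem case_one' {𝒮 : ClSys W} {s t u' : W.H Y} {j n : ℕ}
    {E F : Fin j → Module.End W.K (W.H X)} (hG : GFam W s t u' X j n E F)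
    (h : IsPair W s t u')
    (hs : s ∈ tot 𝒮.toSys Y) (hs' : s ∈ perp (tot (sysA W) Y)) (ht : t ∈ tot 𝒮.toSys Y)
    (ht' : t ∈ perp (tot (sysA W) Y)) (hu : u' ∈ tot (sysA W) Y) :
    2 * Module.finrank W.K (tot (sysA W) X) ≤ Module.finrank W.K (tot 𝒮.toSys X) + n := by
  obtain ⟨c, hc⟩ := hG.rel.exists_generic Finset.univ
  set T := ∑ i ∈ (Finset.univ : Finset (Fin j)), c i • (E i + F i) with hT
  have hmem : ∀ x ∈ tot (sysA W) X, T x ∈ tot 𝒮.toSys X ⊓ perp (tot (sysA W) X) := by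
    intro x hx
    rw [hT, LinearMap.sum_apply]
    refine Submodule.sum_mem _ fun i _ => ?_
    rw [LinearMap.smul_apply, LinearMap.add_apply]
    refine Submodule.smul_mem _ _ (Submodule.add_mem _ ?_ ?_)
    · obtain ⟨S, g, h', hi⟩ := hG.e_form i
      rw [hi]
      exact ⟨𝒮.top_mem (𝒮.alg_tot Y (one_mem_tot Y)) ht g h' (𝒮.alg_tot X hx),
        orth_one h.ct ht' g h' hx⟩
    · obtain ⟨S, g, h', hi⟩ := hG.f_form i
      rw [hi]
      exact ⟨𝒮.top_mem hs (𝒮.alg_tot Y hu) g h' (𝒮.alg_tot X hx),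
        orth_two h.cs hs' hu g h' hx⟩
  have k1 := finrank_map_add (tot (sysA W) X) T
  have k2 : Module.finrank W.K ((tot (sysA W) X).map T) ≤
      Module.finrank W.K (tot 𝒮.toSys X ⊓ perp (tot (sysA W) X) : Submodule W.K (W.H X)) := by
    apply Submodule.finrank_mono
    rintro _ ⟨x, hx, rfl⟩
    exact hmem x hx
  have k3 : Module.finrank W.K (tot (sysA W) X ⊓ LinearMap.ker T : Submodule W.K (W.H X)) ≤ n := by
    refine le_trans ?_ hG.inf_le
    apply Submodule.finrank_mono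
    rintro x ⟨-, hx⟩
    exact hc hx
  have k4 := 𝒮.finrank_perp (𝒮.alg_tot X)
  omega

/-- **The inequality for the algebraic classes.** -/
theorem gapA (𝒮 : ClSys W) {Y : 𝒱.Obj} (hY : Fails 𝒮 Y) (Z : 𝒱.Obj) (j m : ℕ) :
    2 * (Module.finrank W.K (tot (sysA W) (powProd Y Z j)) : ℝ) -
        Module.finrank W.K (tot 𝒮.toSys (powProd Y Z j)) ≤
      1 / Real.sqrt (m + 1) * Module.finrank W.K (tot 𝒮.toSys (powProd Y Z j)) +
      (Module.finrank W.K (W.H Y) ^ m * (Module.finrank W.K (W.H Y) - 1) ^ j *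
        Module.finrank W.K (W.H Z) : ℕ) := by
  have hle := two_mul_alg_le 𝒮 (powProd Y Z j)
  have hle' : 2 * (Module.finrank W.K (tot (sysA W) (powProd Y Z j)) : ℝ) ≤
      Module.finrank W.K (tot 𝒮.toSys (powProd Y Z j)) + rkSum ops (powProd Y Z j) := by
    exact_mod_cast hle
  by_cases hD : FailsD W Y
  · have h1 := gapD 𝒮 hD Z j m
    linarith
  have hN : tot (sysN W) Y = ⊥ := not_not.1 hD
  set A := tot (sysA W) Y with hA
  set V := tot 𝒮.toSys Y with hV
  have hAV : A ≤ V := 𝒮.alg_tot Y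
  have h1A : (1 : W.H Y) ∈ A := one_mem_tot Y
  have h1Y : (1 : W.H Y) ≠ 0 := by
    intro h1
    apply hY
    have h2 : ∀ x : W.H Y, x = 0 := fun x => by rw [← one_mul x, h1, zero_mul]
    have h3 : Module.finrank W.K (tot 𝒮.toSys Y) = 0 := by
      have h4 : tot 𝒮.toSys Y = ⊥ := by
        rw [eq_bot_iff]
        intro x _
        rw [h2 x]
        exact Submodule.zero_mem _
      rw [h4, finrank_bot]
    have h4 := rkSum_le 𝒮 Y
    omega
  have hAN : A ⊓ perp A = ⊥ := by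
    rw [eq_bot_iff, ← hN]
    exact le_totN
  -- a zero-cycle of degree one
  obtain ⟨u', hu, hu1⟩ : ∃ u' ∈ A, W.tr Y u' = 1 := by
    by_contra hpt
    apply h1Y
    have h1 : (1 : W.H Y) ∈ A ⊓ perp A := by
      refine ⟨h1A, fun a ha => ?_⟩
      rw [one_mul]
      by_contra hne
      exact hpt ⟨(W.tr Y a)⁻¹ • a, Submodule.smul_mem _ _ ha, by
        rw [map_smul, smul_eq_mul, inv_mul_cancel₀ hne]⟩
    rw [hAN] at h1
    exact (Submodule.mem_bot _).1 h1
  have hperp : V ⊓ perp A ≠ ⊥ := by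
    intro hbot
    apply hY
    have h1 := 𝒮.finrank_perp (𝒮.alg_tot Y)
    rw [← hA, ← hV, hbot, finrank_bot, zero_add] at h1
    have h3 := rkSum_add (W := W) Y
    rw [hN, finrank_bot, add_zero] at h3
    rw [h3, ← hA, ← hV, h1]
  have hiso : ∃ s ∈ V ⊓ perp A, ∃ t ∈ V ⊓ perp A, W.tr Y (t * s) ≠ 0 := by
    by_contra hcon
    push Not at hcon
    obtain ⟨t, ht, ht0⟩ := (Submodule.ne_bot_iff _).1 hperp
    have htA : t ∈ A := by
      have h1 := 𝒮.finrank_perp (𝒮.alg_tot Y)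
      have h2 := 𝒮.finrank_perp (A := V ⊓ perp A) inf_le_left
      have h3 : A ≤ V ⊓ perp (V ⊓ perp A) := by
        refine le_inf hAV ?_
        intro a ha x hx
        rw [tot_comm ha]
        exact hx.2 a ha
      have h4 : A = V ⊓ perp (V ⊓ perp A) := by
        apply Submodule.eq_of_le_of_finrank_le h3
        rw [← hA, ← hV] at h1
        rw [← hV] at h2
        omega
      rw [h4]
      exact ⟨ht.1, fun s hs => hcon s hs t ht⟩
    have h5 : t ∈ A ⊓ perp A := ⟨htA, ht.2⟩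
    rw [hAN] at h5
    exact ht0 ((Submodule.mem_bot _).1 h5)
  obtain ⟨s, hs, t, ht, hst⟩ := hiso
  have ht1 : W.tr Y t = 0 := by
    have := ht.2 1 h1A
    rwa [mul_one] at this
  set s₁ := (W.tr Y (t * s))⁻¹ • s with hs₁
  have hs₁V : s₁ ∈ V ⊓ perp A := Submodule.smul_mem _ _ hs
  have hts₁ : W.tr Y (t * s₁) = 1 := by
    rw [hs₁, mul_smul_comm, map_smul, smul_eq_mul, inv_mul_cancel₀ hst]
  have hpair : IsPair W s₁ t u' := by
    refine ⟨cen_of_tot hs₁V.1, cen_of_tot ht.1, cen_of_tot hu, hts₁, ?_, ?_, ?_⟩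
    · rw [mul_one, hu1]
    · rw [mul_one, ht1]
    · rw [tot_comm hu]
      exact hs₁V.2 u' hu
  have hh2 : 2 ≤ Module.finrank W.K (W.H Y) := by
    have := hpair.finrank_compl
    omega
  obtain ⟨E, F, hG⟩ := exists_gfam hpair Z j
  have h1 := case_one' hG hpair hs₁V.1 hs₁V.2 ht.1 ht.2 hu
  have h2 : (Module.finrank W.K (W.H Y) - 2) ^ j * Module.finrank W.K (W.H Z) ≤
      Module.finrank W.K (W.H Y) ^ m * (Module.finrank W.K (W.H Y) - 1) ^ j *
        Module.finrank W.K (W.H Z) := by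
    refine Nat.mul_le_mul_right _ ?_
    calc (Module.finrank W.K (W.H Y) - 2) ^ j ≤ (Module.finrank W.K (W.H Y) - 1) ^ j :=
          Nat.pow_le_pow_left (by omega) j
      _ ≤ Module.finrank W.K (W.H Y) ^ m * (Module.finrank W.K (W.H Y) - 1) ^ j :=
          Nat.le_mul_of_pos_left _ (by positivity)
  have h3 : 2 * (Module.finrank W.K (tot (sysA W) (powProd Y Z j)) : ℝ) ≤
      Module.finrank W.K (tot 𝒮.toSys (powProd Y Z j)) +
      (Module.finrank W.K (W.H Y) ^ m * (Module.finrank W.K (W.H Y) - 1) ^ j *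
        Module.finrank W.K (W.H Z) : ℕ) := by
    exact_mod_cast h1.trans (Nat.add_le_add_left h2 _)
  have h4 : (0 : ℝ) ≤ 1 / Real.sqrt (m + 1) *
      Module.finrank W.K (tot 𝒮.toSys (powProd Y Z j)) := by positivity
  linarith

/-- **The half law for the algebraic classes.** -/
theorem half_law (𝒮 : ClSys W) (n : ℕ) (hF : Fails 𝒮 (powProd Y Y n))
    (hY1 : (1 : W.H Y) ≠ 0) (Z : 𝒱.Obj) (D : ℕ)
    (hgrow : ∀ J : ℕ, Module.finrank W.K (W.H Z) * Module.finrank W.K (W.H Y) ^ J ≤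
      D * ((J + 1) ^ D * Module.finrank W.K (tot 𝒮.toSys (powProd Y Z J)))) :
    ∃ C : ℝ, 0 ≤ C ∧ ∀ J : ℕ, (Module.finrank W.K (tot (sysA W) (powProd Y Z J)) : ℝ) ≤
      (1 / 2 + C / Real.sqrt (J + 1)) *
        Module.finrank W.K (tot 𝒮.toSys (powProd Y Z J)) := by
  have hh1 : 1 ≤ Module.finrank W.K (W.H Y) := by
    rw [Nat.succ_le_iff, Module.finrank_pos_iff]
    exact ⟨1, 0, hY1⟩
  obtain ⟨C, hC, hb⟩ := conclude 𝒮 n hh1 Z D hgrow
    (fun J => 2 * (Module.finrank W.K (tot (sysA W) (powProd Y Z J)) : ℝ) -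
        Module.finrank W.K (tot 𝒮.toSys (powProd Y Z J))) (by
      intro J a
      have h1 := gapA 𝒮 hF (powProd Y Z (J % (n + 1))) (J / (n + 1)) a
      have h2 := isoc_powpow Y (powProd Y Z (J % (n + 1))) n (J / (n + 1))
      rw [powProd_add, Nat.div_add_mod J (n + 1)] at h2
      rw [h2.finrank_tot (sysA W), h2.finrank_tot 𝒮.toSys, finrank_H_pow, finrank_H_pow,
        ← pow_succ] at h1
      exact h1)
  refine ⟨C / 2, by positivity, fun J => ?_⟩
  have h1 := hb J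
  have h2 : (1 / 2 + C / 2 / Real.sqrt (J + 1)) *
      (Module.finrank W.K (tot 𝒮.toSys (powProd Y Z J)) : ℝ) =
      (Module.finrank W.K (tot 𝒮.toSys (powProd Y Z J)) + C / Real.sqrt (J + 1) *
        Module.finrank W.K (tot 𝒮.toSys (powProd Y Z J))) / 2 := by ring
  rw [h2]
  linarith

/-- The sum over all codimensions `c ≤ dim Z` of the dimensions of the spaces spanned by the classes
of cycles of codimension `c`. -/
noncomputable def algRank (W : WeilCohomology.{u, v} ops) (Z : 𝒱.Obj) : ℕ :=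
  ∑ c ∈ Finset.range (Z.dim + 1), Module.finrank W.K (spanCycles W Z (c : ℕ))

lemma algRank_eq (Z : 𝒱.Obj) : algRank W Z = Module.finrank W.K (tot (sysA W) Z) :=
  (finrank_tot (sysA W) Z).symm

/-- If the numerical rank is maximal, the generalised Tate classes are algebraic, and homological
and numerical equivalence agree. -/
lemma of_not_fails (Φ : FrobSystem W p) (h : ¬ Fails (clT Φ) Y) :
    (∀ c, SemisimpleTateIn Φ Y c) ∧ HomEqNum W Y := by
  have h0 : rkSum ops Y = Module.finrank W.K (tot (sysT Φ) Y) := not_not.1 h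
  have h1 := rkSum_add (W := W) Y
  have h2 : Module.finrank W.K (tot (sysA W) Y) ≤ Module.finrank W.K (tot (sysT Φ) Y) :=
    Submodule.finrank_mono ((clT Φ).alg_tot Y)
  have h3 : Module.finrank W.K (tot (sysN W) Y) = 0 := by omega
  have h4 : tot (sysA W) Y = tot (sysT Φ) Y := by
    apply Submodule.eq_of_le_of_finrank_le ((clT Φ).alg_tot Y)
    change Module.finrank W.K (tot (sysT Φ) Y) ≤ _
    omega
  constructor
  · intro c s hs x hx
    have h5 : x ∈ genT Φ Y c := (mem_genT Φ).2 ⟨s, hs, hx⟩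
    have h6 : x ∈ tot (sysA W) Y := by
      rw [h4]
      exact le_tot (sysT Φ) Y c h5
    have h7 := proj_algSp h6 (c := c)
    rwa [proj_same _ ((sysT Φ).gr Y c h5)] at h7
  · exact homEqNum_of (fun hcon => hcon (Submodule.finrank_eq_zero.1 h3))

/-- **The half law for the classes of cycles.** -/
theorem main_half (W : WeilCohomology.{u, v} ops) [IsAlgClosed W.K] (σ : W.K →+* ℂ) (p : ℕ)
    (hp : p.Prime) (Φ : FrobSystem W p) (hRH : ∀ Z : 𝒱.Obj, RiemannHyp Φ σ Z) (Y : 𝒱.Obj) :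
    (∀ n, (∀ c, SemisimpleTateIn Φ (powProd Y Y n) c) ∧ HomEqNum W (powProd Y Y n)) ∨
    ∀ Z : 𝒱.Obj, ∃ C : ℝ, 0 ≤ C ∧ ∀ n : ℕ, ∃ P : ℕ,
      PoleSum Φ σ (powProd Y Z n) P ∧
      (algRank W (powProd Y Z n) : ℝ) ≤ (1 / 2 + C / Real.sqrt (n + 1)) * P := by
  by_cases hall : ∀ n, ¬ Fails (clT Φ) (powProd Y Y n)
  · exact Or.inl fun n => of_not_fails Φ (hall n)
  right
  push Not at hall
  obtain ⟨n, hn⟩ := hall
  intro Z
  have hY1 : (1 : W.H Y) ≠ 0 := by
    have h1 := one_ne_of_fails hn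
    intro h0
    apply h1
    rcases n with _ | n
    · exact h0
    · change (1 : W.H (Y.prod (powProd Y Y n))) = 0
      rw [← map_one (W.map (fst Y (powProd Y Y n))), h0, map_zero]
  obtain ⟨D, hD⟩ := growT Φ hp.one_lt hRH Y Z hY1
  obtain ⟨C, hC, hb⟩ := half_law (clT Φ) n hn hY1 Z D hD
  refine ⟨C, hC, fun J => ⟨_, poleSum_tot Φ hp.one_lt (hRH _), ?_⟩⟩
  rw [algRank_eq]
  exact hb J

end Pool.Agent.U226.SR
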