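import Mathlib

/-!
# Sums of the largest binomial coefficients
-/

set_option autoImplicit false

open Finset

namespace Pool.Agent.U226.SR

/-- The sum of the binomial coefficients of the row `m` over the indices with the property `P`. -/
def bsum (m : ℕ) (P : ℕ → Prop) [DecidablePred P] : ℕ :=
  ∑ j ∈ range (m + 1), if P j then m.choose j else 0

lemma bsum_succ (m : ℕ) (P : ℕ → Prop) [DecidablePred P] :
    bsum (m + 1) P = bsum m P + bsum m (fun j => P (j + 1)) := by
  have h1 : bsum m P = ∑ j ∈ range (m + 2), if P j then m.choose j else 0 := by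
    rw [Finset.sum_range_succ _ (m + 1), Nat.choose_succ_self, ite_self, add_zero]
    rfl
  have h2 : (∑ j ∈ range (m + 2), if P j then m.choose j else 0) =
      (∑ j ∈ range (m + 1), if P (j + 1) then m.choose (j + 1) else 0) +
        if P 0 then m.choose 0 else 0 := Finset.sum_range_succ' _ _
  have h3 : bsum (m + 1) P =
      (∑ j ∈ range (m + 1), if P (j + 1) then (m + 1).choose (j + 1) else 0) +
        if P 0 then (m + 1).choose 0 else 0 := Finset.sum_range_succ' _ _
  rw [h3, h1, h2, bsum, add_right_comm, ← Finset.sum_add_distrib]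
  congr 1
  · refine Finset.sum_congr rfl fun j _ => ?_
    split_ifs
    · rw [Nat.choose_succ_succ, add_comm]
    · rfl
  · rw [Nat.choose_zero_right, Nat.choose_zero_right]

/-- The sum of the `k` largest binomial coefficients of the row `m`. -/
def win (m k : ℕ) : ℕ := bsum m fun j => m < 2 * j + k ∧ 2 * j ≤ m + k

lemma win_zero_right (m : ℕ) : win m 0 = 0 := by
  rw [win, bsum]
  refine Finset.sum_eq_zero fun j _ => ?_
  rw [if_neg (by omega)]

lemma win_zero_left (k : ℕ) : win 0 (k + 1) = 1 := by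
  rw [win, bsum, Finset.sum_range_one, if_pos (by omega), Nat.choose_self]

lemma win_succ (m k : ℕ) : win (m + 1) (k + 1) = win m (k + 2) + win m k := by
  rw [win, bsum_succ, win, win, bsum, bsum, bsum, bsum, ← Finset.sum_add_distrib,
    ← Finset.sum_add_distrib]
  refine Finset.sum_congr rfl fun j _ => ?_
  split_ifs <;> omega

lemma win_one (m : ℕ) : win m 1 = m.choose ((m + 1) / 2) := by
  rw [win, bsum, Finset.sum_eq_single ((m + 1) / 2)]
  · rw [if_pos (by omega)]
  · intro j _ hj
    rw [if_neg (by omega)]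
  · intro h
    rw [Finset.mem_range] at h
    rw [Nat.choose_eq_zero_of_lt (by omega), ite_self]

lemma central_sq (n : ℕ) : (Nat.centralBinom n) ^ 2 * (2 * n + 1) ≤ 16 ^ n := by
  induction n with
  | zero => simp
  | succ n ih =>
    have h1 := Nat.succ_mul_centralBinom_succ n
    -- (n+1) cb(n+1) = 2 (2n+1) cb n
    have h2 : (n + 1) ^ 2 * ((Nat.centralBinom (n + 1)) ^ 2 * (2 * (n + 1) + 1)) ≤
        (n + 1) ^ 2 * 16 ^ (n + 1) := by
      calc (n + 1) ^ 2 * ((Nat.centralBinom (n + 1)) ^ 2 * (2 * (n + 1) + 1))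
          = ((n + 1) * Nat.centralBinom (n + 1)) ^ 2 * (2 * n + 3) := by ring
        _ = (2 * (2 * n + 1) * Nat.centralBinom n) ^ 2 * (2 * n + 3) := by rw [h1]
        _ = (4 * (2 * n + 1) * (2 * n + 3)) * (Nat.centralBinom n ^ 2 * (2 * n + 1)) := by ring
        _ ≤ (4 * (2 * n + 1) * (2 * n + 3)) * 16 ^ n := Nat.mul_le_mul_left _ ih
        _ ≤ ((n + 1) ^ 2 * 16) * 16 ^ n := by
            apply Nat.mul_le_mul_right
            nlinarith
        _ = (n + 1) ^ 2 * 16 ^ (n + 1) := by ring
    exact Nat.le_of_mul_le_mul_left h2 (by positivity)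

lemma win_one_sq (m : ℕ) : (win m 1) ^ 2 * (m + 1) ≤ 4 ^ m := by
  rw [win_one]
  rcases Nat.even_or_odd' m with ⟨n, rfl | rfl⟩
  · have h1 := central_sq n
    rw [Nat.centralBinom_eq_two_mul_choose] at h1
    rw [show (2 * n + 1) / 2 = n by omega, pow_mul]
    exact h1
  · have h1 := central_sq (n + 1)
    have h2 := Nat.centralBinom_eq_two_mul_choose (n + 1)
    have h3 : Nat.centralBinom (n + 1) = 2 * (2 * n + 1).choose (n + 1) := by
      rw [h2, show 2 * (n + 1) = (2 * n + 1) + 1 by ring, Nat.choose_succ_succ,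
        Nat.choose_symm_of_eq_add (show 2 * n + 1 = n + (n + 1) by ring)]
      ring
    rw [show (2 * n + 1 + 1) / 2 = n + 1 by omega]
    rw [h3] at h1
    have h4 : 4 * ((2 * n + 1).choose (n + 1) ^ 2 * (2 * n + 1 + 1)) ≤ 4 * 4 ^ (2 * n + 1) := by
      calc 4 * ((2 * n + 1).choose (n + 1) ^ 2 * (2 * n + 1 + 1))
          ≤ (2 * (2 * n + 1).choose (n + 1)) ^ 2 * (2 * (n + 1) + 1) := by nlinarith
        _ ≤ 16 ^ (n + 1) := h1
        _ = 4 * 4 ^ (2 * n + 1) := by
            rw [show (16 : ℕ) = 4 ^ 2 by norm_num, ← pow_mul, ← pow_succ']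
            congr 1
    omega

end Pool.Agent.U226.SR
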