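import Pool.Agent.U226.SR.Fam2
import Pool.Agent.N181.Gap.TateC
import Pool.Agent.N181.Gap.Iso

/-!
# Numerically trivial classes and the ranks of the powers
-/

set_option autoImplicit false

open CategoryTheory AlgebraicGeometry TensorProduct

universe u v

namespace Pool.Agent.U226.SR

open Pool.Agent.H914 Pool.Agent.H914.VarClass Pool.Agent.H914.VarClass.Obj
  Pool.Agent.H914.WeilCohomology Pool.Agent.W534 Pool.Agent.TH132.P Pool.Agent.N181.Mod
  Pool.Agent.N181.Gap

variable {k : Type u} [Field k] {𝒱 : VarClass k} {ops : CycleOps 𝒱}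
  {W : WeilCohomology.{u, v} ops} {U X Y Z Z' S : 𝒱.Obj} {p : ℕ}

/-- There is a non-zero numerically trivial algebraic class on `Y`. -/
def FailsD (W : WeilCohomology.{u, v} ops) (Y : 𝒱.Obj) : Prop := tot (sysN W) Y ≠ ⊥

/-- If there is no non-zero numerically trivial algebraic class, numerical and homological
equivalence agree. -/
lemma homEqNum_of (h : ¬ FailsD W Y) : HomEqNum W Y := by
  intro c hc z hz hz'
  have h0 : tot (sysN W) Y = ⊥ := not_not.1 h
  have h1 : W.cl Y z ∈ nul W Y c := by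
    refine mem_nul.2 ⟨alg_mem_span ⟨z, hz, rfl⟩, fun y hy => ?_⟩
    refine spanCycles_ind (p := fun y => W.tr Y (W.cl Y z * y) = 0) ?_ ?_ ?_ ?_ hy
    · rintro _ ⟨w, hw, rfl⟩
      have h4 := ops.mul_mem hz hw
      rw [show c + (Y.dim - c) = Y.dim by omega] at h4
      rw [← W.cl_mul, W.tr_cl h4, hz' w hw, Rat.cast_zero]
    · rw [mul_zero, map_zero]
    · intro a b ha hb; rw [mul_add, map_add, ha, hb, add_zero]
    · intro r a ha; rw [mul_smul_comm, map_smul, ha, smul_zero]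
  have h2 := le_tot (sysN W) Y c h1
  rw [h0] at h2
  exact (Submodule.mem_bot _).1 h2

/-- **The inequality for the powers.** -/
theorem gapD (𝒮 : ClSys W) {Y : 𝒱.Obj} (hY : FailsD W Y) (Z : 𝒱.Obj) (j m : ℕ) :
    (rkSum ops (powProd Y Z j) : ℝ) ≤
      1 / Real.sqrt (m + 1) * Module.finrank W.K (tot 𝒮.toSys (powProd Y Z j)) +
      (Module.finrank W.K (W.H Y) ^ m * (Module.finrank W.K (W.H Y) - 1) ^ j *
        Module.finrank W.K (W.H Z) : ℕ) := by
  set A := tot (sysA W) Y with hA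
  set V := tot 𝒮.toSys Y with hV
  have hAV : A ≤ V := 𝒮.alg_tot Y
  have h1A : (1 : W.H Y) ∈ A := one_mem_tot Y
  have hY1 : 1 ≤ Module.finrank W.K (W.H Y) := by
    obtain ⟨t, -, ht0⟩ := (Submodule.ne_bot_iff _).1 hY
    rw [Nat.succ_le_iff, Module.finrank_pos_iff]
    exact ⟨t, 0, ht0⟩
  by_cases hpt : ∃ u' ∈ A, W.tr Y u' = 1
  swap
  · -- no zero-cycles of non-zero degree
    have hpt0 : ∀ x ∈ A, W.tr Y x = 0 := by
      intro x hx
      by_contra hne
      exact hpt ⟨(W.tr Y x)⁻¹ • x, Submodule.smul_mem _ _ hx, by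
        rw [map_smul, smul_eq_mul, inv_mul_cancel₀ hne]⟩
    rcases j with _ | j
    · have h1 := rkSum_le 𝒮 (powProd Y Z 0)
      have h2 : Module.finrank W.K (tot 𝒮.toSys (powProd Y Z 0)) ≤
        Module.finrank W.K (W.H Z) := Submodule.finrank_le _
      have h3 : rkSum ops (powProd Y Z 0) ≤ Module.finrank W.K (W.H Y) ^ m *
          (Module.finrank W.K (W.H Y) - 1) ^ 0 * Module.finrank W.K (W.H Z) := by
        rw [pow_zero, mul_one]
        exact (h1.trans h2).trans (Nat.le_mul_of_pos_left _ (by positivity))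
      have h4 : (rkSum ops (powProd Y Z 0) : ℝ) ≤ ((Module.finrank W.K (W.H Y) ^ m *
          (Module.finrank W.K (W.H Y) - 1) ^ 0 * Module.finrank W.K (W.H Z) : ℕ) : ℝ) := by
        exact_mod_cast h3
      have h5 : (0 : ℝ) ≤ 1 / Real.sqrt (m + 1) *
        Module.finrank W.K (tot 𝒮.toSys (powProd Y Z 0)) := by positivity
      linarith
    · have h1 : rkSum ops (powProd Y Z (j + 1)) = 0 := by
        have h2 := rkSum_add (W := W) (powProd Y Z (j + 1))
        have h3 : tot (sysA W) (powProd Y Z (j + 1)) ≤ tot (sysN W) (powProd Y Z (j + 1)) := by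
          refine le_trans ?_ le_totN
          refine le_inf le_rfl ?_
          intro x hx y hy
          have h4 := tot_push (fst Y (powProd Y Z j)) (tot_mul hx hy)
          have h5 := hpt0 _ h4
          rw [← mul_one (W.push _ _), W.tr_push, map_one, mul_one] at h5
          exact h5
        have h4 := Submodule.finrank_mono h3
        omega
      rw [h1, Nat.cast_zero]
      positivity
  obtain ⟨u', hu, hu1⟩ := hpt
  obtain ⟨t, htN, ht0⟩ := (Submodule.ne_bot_iff _).1 hY
  have ht := totN_le htN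
  obtain ⟨htA, htp⟩ := ht
  have htA : t ∈ A := htA
  have htp : t ∈ perp A := htp
  obtain ⟨s, hs, hs0⟩ : ∃ s ∈ V, W.tr Y (t * s) ≠ 0 := by
    by_contra hcon
    push Not at hcon
    exact ht0 (𝒮.nondeg_tot (hAV htA) hcon)
  have ht1 : W.tr Y t = 0 := by
    have := htp 1 h1A
    rwa [mul_one] at this
  obtain ⟨s₁, hs₁V, hts₁⟩ : ∃ s₁ ∈ V, W.tr Y (t * s₁) = 1 :=
    ⟨(W.tr Y (t * s))⁻¹ • s, Submodule.smul_mem _ _ hs, by
      rw [mul_smul_comm, map_smul, smul_eq_mul, inv_mul_cancel₀ hs0]⟩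
  set s₂ := s₁ - W.tr Y (u' * s₁) • (1 : W.H Y) with hs₂
  have hs₂V : s₂ ∈ V := Submodule.sub_mem _ hs₁V (Submodule.smul_mem _ _ (hAV h1A))
  have hpair : IsPair W s₂ t u' := by
    refine ⟨cen_of_tot hs₂V, cen_of_tot htA, cen_of_tot hu, ?_, ?_, ?_, ?_⟩
    · rw [hs₂, mul_sub, mul_smul_comm, map_sub, map_smul, mul_one, ht1, smul_zero, sub_zero,
        hts₁]
    · rw [mul_one, hu1]
    · rw [mul_one, ht1]
    · rw [hs₂, mul_sub, mul_smul_comm, map_sub, map_smul, mul_one, hu1, smul_eq_mul, mul_one,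
        sub_self]
  have h2 : 2 ≤ Module.finrank W.K (W.H Y) := by
    have := hpair.finrank_compl
    omega
  have hfam := exists_gfam2 hpair Z j
  set X := powProd Y Z j with hX
  obtain ⟨E, F, hG⟩ := hfam
  set T := ∑ i ∈ (Finset.univ : Finset (Fin j)), E i with hT
  have hE : ∀ i, ∀ x ∈ tot 𝒮.toSys X, E i x ∈ tot 𝒮.toSys X := by
    intro i x hx
    obtain ⟨S, g, h', hi⟩ := hG.e_form i
    rw [hi]
    exact 𝒮.top_mem (𝒮.alg_tot Y (one_mem_tot Y)) (𝒮.alg_tot Y htA) g h' hx
  have hF : ∀ i, ∀ x ∈ tot 𝒮.toSys X, F i x ∈ tot 𝒮.toSys X := by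
    intro i x hx
    obtain ⟨S, g, h', hi⟩ := hG.f_form i
    rw [hi]
    exact 𝒮.top_mem hs₂V (hAV hu) g h' hx
  have hmem : ∀ x ∈ tot (sysA W) X, T x ∈ tot (sysN W) X := by
    intro x hx
    refine le_totN ?_
    rw [hT, LinearMap.sum_apply]
    refine Submodule.sum_mem _ fun i _ => ?_
    obtain ⟨S, g, h', hi⟩ := hG.e_form i
    rw [hi]
    exact ⟨top_mem_alg htA g h' hx, orth_one hpair.ct htp g h' hx⟩
  have k1 := finrank_map_add (tot (sysA W) X) T
  have k2 : Module.finrank W.K ((tot (sysA W) X).map T) ≤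
      Module.finrank W.K (tot (sysN W) X) := by
    apply Submodule.finrank_mono
    rintro _ ⟨x, hx, rfl⟩
    exact hmem x hx
  have k3 : Module.finrank W.K (tot (sysA W) X ⊓ LinearMap.ker T : Submodule W.K (W.H X)) ≤
      Module.finrank W.K (tot 𝒮.toSys X ⊓ LinearMap.ker T : Submodule W.K (W.H X)) :=
    Submodule.finrank_mono (inf_le_inf_right _ (𝒮.alg_tot X))
  have k5 := rkSum_add (W := W) X
  have k6 : (rkSum ops X : ℝ) ≤
      Module.finrank W.K (tot 𝒮.toSys X ⊓ LinearMap.ker T : Submodule W.K (W.H X)) := by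
    have : rkSum ops X ≤
      Module.finrank W.K (tot 𝒮.toSys X ⊓ LinearMap.ker T : Submodule W.K (W.H X)) := by omega
    exact_mod_cast this
  have k7 := ker_le_sqrt hG.rel Finset.univ (tot 𝒮.toSys X) (fun i _ => hE i) (fun i _ => hF i) m
  have k8 := hG.sum_cell_le h2 (tot 𝒮.toSys X) m
  have k9 : ∑ I ∈ (Finset.univ : Finset (Fin j)).powerset.filter (fun I => I.card < m),
      (Module.finrank W.K (cell E F Finset.univ I (tot 𝒮.toSys X)) : ℝ) ≤
        ((Module.finrank W.K (W.H Y) ^ m * (Module.finrank W.K (W.H Y) - 1) ^ j *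
          Module.finrank W.K (W.H Z) : ℕ) : ℝ) := by exact_mod_cast k8
  refine k6.trans (k7.trans ?_)
  linarith

end Pool.Agent.U226.SR
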