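import Pool.Agent.U226.SR.LinS

/-!
# The square root bound
-/

set_option autoImplicit false

open Finset

namespace Pool.Agent.U226.SR

open Pool.Agent.N181.Gap

lemma win_div_le (m : ℕ) : (win m 1 : ℝ) / 2 ^ m ≤ 1 / Real.sqrt (m + 1) := by
  have h1 := win_one_sq m
  have h2 : ((win m 1 : ℝ) * Real.sqrt (m + 1)) ^ 2 ≤ (2 ^ m) ^ 2 := by
    rw [mul_pow, Real.sq_sqrt (by positivity), ← pow_mul, mul_comm m 2, pow_mul]
    norm_num
    exact_mod_cast h1
  have h3 : (0 : ℝ) < Real.sqrt (m + 1) := Real.sqrt_pos.2 (by positivity)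
  rw [div_le_div_iff₀ (by positivity) h3, one_mul]
  exact le_of_sq_le_sq h2 (by positivity)

variable {K H ι : Type*} [Field K] [CharZero K] [AddCommGroup H] [Module K H]
  [FiniteDimensional K H] [DecidableEq ι] {e f : ι → Module.End K H}

/-- **The square root bound.** -/
theorem ker_le_sqrt (h : Rel e f) (s : Finset ι) (Q : Submodule K H)
    (he : ∀ i ∈ s, ∀ x ∈ Q, e i x ∈ Q) (hf : ∀ i ∈ s, ∀ x ∈ Q, f i x ∈ Q) (m : ℕ) :
    (Module.finrank K (Q ⊓ LinearMap.ker (∑ i ∈ s, e i) : Submodule K H) : ℝ) ≤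
      1 / Real.sqrt (m + 1) * Module.finrank K Q +
        ∑ I ∈ s.powerset.filter (fun I => I.card < m),
          (Module.finrank K (cell e f s I Q) : ℝ) := by
  have h1 := ker_pow_le h s Q he hf 1
  rw [pow_one] at h1
  refine h1.trans ?_
  have h2 := sum_cell h s Q he hf
  have h3 : (Module.finrank K Q : ℝ) = ∑ I ∈ s.powerset,
      (Module.finrank K (cell e f s I Q) : ℝ) := by exact_mod_cast h2.symm
  rw [h3, Finset.mul_sum, Finset.sum_filter, ← Finset.sum_add_distrib]
  refine Finset.sum_le_sum fun I _ => ?_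
  have h4 : (0 : ℝ) ≤ Module.finrank K (cell e f s I Q) := by positivity
  have h5 := win_div_le I.card
  split_ifs with h6
  · have h7 : (1 : ℝ) / Real.sqrt ((I.card : ℝ) + 1) ≤ 1 := by
      rw [div_le_one (Real.sqrt_pos.2 (by positivity))]
      rw [Real.one_le_sqrt]
      have : (0 : ℝ) ≤ I.card := by positivity
      linarith
    have h8 : (0 : ℝ) ≤ 1 / Real.sqrt ((m : ℝ) + 1) := by positivity
    nlinarith [mul_nonneg h8 h4]
  · rw [add_zero]
    apply mul_le_mul_of_nonneg_right _ h4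
    refine h5.trans ?_
    apply one_div_le_one_div_of_le (Real.sqrt_pos.2 (by positivity))
    apply Real.sqrt_le_sqrt
    have : (m : ℝ) ≤ I.card := by exact_mod_cast not_lt.1 h6
    linarith

end Pool.Agent.U226.SR
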