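import Pool.Agent.N181.Gap.Core
import Pool.Agent.U226.SR.LinT

/-!
# The families of operators on the powers of a variety, with the ranks of all the partial kernels
-/

set_option autoImplicit false

open CategoryTheory AlgebraicGeometry TensorProduct

universe u v

namespace Pool.Agent.U226.SR

open Pool.Agent.H914 Pool.Agent.H914.VarClass Pool.Agent.H914.VarClass.Obj
  Pool.Agent.H914.WeilCohomology Pool.Agent.W534 Pool.Agent.TH132.P Pool.Agent.N181.Mod
  Pool.Agent.N181.Gap

variable {k : Type u} [Field k] {𝒱 : VarClass k} {ops : CycleOps 𝒱}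
  {W : WeilCohomology.{u, v} ops} {U X Y Z Z' S : 𝒱.Obj} {p : ℕ}

/-- The families of operators. -/
structure GFam2 (W : WeilCohomology.{u, v} ops) {Y : 𝒱.Obj} (s t u' : W.H Y) (X : 𝒱.Obj)
    (j n : ℕ) (E F : Fin j → Module.End W.K (W.H X)) : Prop where
  rel : Rel E F
  e_form : ∀ i, ∃ (S : 𝒱.Obj) (g : X ⟶ Y) (h : X ⟶ S), E i = top W g h 1 t
  f_form : ∀ i, ∃ (S : 𝒱.Obj) (g : X ⟶ Y) (h : X ⟶ S), F i = top W g h s u'
  rank : ∀ I : Finset (Fin j), ∃ (Q : Module.End W.K (W.H X))
    (a : Fin j → Module.End W.K (W.H X)),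
    1 - Q = ∑ i, (if i ∈ I then a i * pr E F i else 0) ∧
      Module.finrank W.K (LinearMap.range Q) ≤
        (∏ i, if i ∈ I then Module.finrank W.K (W.H Y) - 2 else Module.finrank W.K (W.H Y)) * n


/-- **The step.** -/
theorem gfam2_step {s t u' : W.H Y} (h : IsPair W s t u') {R : 𝒱.Obj} {j n : ℕ}
    {E F : Fin j → Module.End W.K (W.H R)} (hG : GFam2 W s t u' R j n E F) :
    ∃ E' F' : Fin (j + 1) → Module.End W.K (W.H (Y.prod R)),
      GFam2 W s t u' (Y.prod R) (j + 1) n E' F' := by
  set e : Module.End W.K (W.H Y) := rk W 1 t with he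
  set f : Module.End W.K (W.H Y) := rk W s u' with hf
  set P : Module.End W.K (W.H Y) := rk W 1 u' + rk W s t with hP
  have hee : e * e = 0 := by rw [he, rk_mul, h.t1, zero_smul]
  have hff : f * f = 0 := by rw [hf, rk_mul, h.us, zero_smul]
  have hpe : e * f + f * e = P := h.p_eq
  have hefe : e * f * e = e := by
    rw [he, hf, rk_mul, h.ts, one_smul, rk_mul, h.u1, one_smul]
  have hfef : f * e * f = f := by
    rw [he, hf, rk_mul, h.u1, one_smul, rk_mul, h.ts, one_smul]
  set E' : Fin (j + 1) → Module.End W.K (W.H (Y.prod R)) :=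
    Fin.cons (extOp W e 1) (fun i => extOp W 1 (E i)) with hE'
  set F' : Fin (j + 1) → Module.End W.K (W.H (Y.prod R)) :=
    Fin.cons (extOp W f 1) (fun i => extOp W 1 (F i)) with hF'
  have hE0 : E' 0 = extOp W e 1 := rfl
  have hEs : ∀ i : Fin j, E' i.succ = extOp W 1 (E i) := fun i => rfl
  have hF0 : F' 0 = extOp W f 1 := rfl
  have hFs : ∀ i : Fin j, F' i.succ = extOp W 1 (F i) := fun i => rfl
  have hrel : Rel E' F' := by
    refine ⟨?_, ?_, ?_, ?_, ?_, ?_, ?_⟩
    · refine Fin.cases ?_ fun i => ?_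
      · rw [hE0, extOp_mul, hee, extOp_zero_left]
      · rw [hEs, extOp_mul, hG.rel.ee, extOp_zero_right]
    · refine Fin.cases ?_ fun i => ?_
      · rw [hF0, extOp_mul, hff, extOp_zero_left]
      · rw [hFs, extOp_mul, hG.rel.ff, extOp_zero_right]
    · refine Fin.cases ?_ fun i => ?_
      · rw [hE0, hF0, extOp_mul, extOp_mul, hefe, mul_one, mul_one]
      · rw [hEs, hFs, extOp_mul, extOp_mul, hG.rel.efe, mul_one, mul_one]
    · refine Fin.cases ?_ fun i => ?_
      · rw [hE0, hF0, extOp_mul, extOp_mul, hfef, mul_one, mul_one]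
      · rw [hEs, hFs, extOp_mul, extOp_mul, hG.rel.fef, mul_one, mul_one]
    · refine Fin.cases ?_ fun i => ?_
      · refine Fin.cases ?_ fun l => ?_
        · intro h0; exact absurd rfl h0
        · intro _
          rw [hE0, hEs]
          exact extOp_comm _ _
      · refine Fin.cases ?_ fun l => ?_
        · intro _
          rw [hE0, hEs]
          exact (extOp_comm _ _).symm
        · intro h0
          rw [hEs, hEs, extOp_mul, extOp_mul, hG.rel.cee i l (fun h1 => h0 (by rw [h1]))]
    · refine Fin.cases ?_ fun i => ?_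
      · refine Fin.cases ?_ fun l => ?_
        · intro h0; exact absurd rfl h0
        · intro _
          rw [hE0, hFs]
          exact extOp_comm _ _
      · refine Fin.cases ?_ fun l => ?_
        · intro _
          rw [hF0, hEs]
          exact (extOp_comm _ _).symm
        · intro h0
          rw [hEs, hFs, extOp_mul, extOp_mul, hG.rel.cef i l (fun h1 => h0 (by rw [h1]))]
    · refine Fin.cases ?_ fun i => ?_
      · refine Fin.cases ?_ fun l => ?_
        · intro h0; exact absurd rfl h0
        · intro _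
          rw [hF0, hFs]
          exact extOp_comm _ _
      · refine Fin.cases ?_ fun l => ?_
        · intro _
          rw [hF0, hFs]
          exact (extOp_comm _ _).symm
        · intro h0
          rw [hFs, hFs, extOp_mul, extOp_mul, hG.rel.cff i l (fun h1 => h0 (by rw [h1]))]
  have hp0 : pr E' F' 0 = extOp W P 1 := by
    rw [pr, hE0, hF0, extOp_mul, extOp_mul, mul_one, ← extOp_add_left, hpe]
  have hps : ∀ i : Fin j, pr E' F' i.succ = extOp W 1 (pr E F i) := by
    intro i
    rw [pr, hEs, hFs, extOp_mul, extOp_mul, mul_one, ← extOp_add_right]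
    rfl
  refine ⟨E', F', hrel, ?_, ?_, ?_⟩
  · refine Fin.cases ⟨R, fst Y R, snd Y R, ?_⟩ fun i => ?_
    · rw [hE0, top_fst]
    · obtain ⟨S, g, h', hi⟩ := hG.e_form i
      exact ⟨Y.prod S, snd Y R ≫ g, idp Y h', by
        rw [hEs, hi, top_ext' (Cen.one Y) h.ct]⟩
  · refine Fin.cases ⟨R, fst Y R, snd Y R, ?_⟩ fun i => ?_
    · rw [hF0, top_fst]
    · obtain ⟨S, g, h', hi⟩ := hG.f_form i
      exact ⟨Y.prod S, snd Y R ≫ g, idp Y h', by
        rw [hFs, hi, top_ext' h.cs h.cu]⟩
  · intro I
    set I' : Finset (Fin j) := Finset.univ.filter fun i => i.succ ∈ I with hI'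
    have hmem : ∀ i : Fin j, i ∈ I' ↔ i.succ ∈ I := fun i => by simp [hI']
    obtain ⟨Q, a, hQ, hn⟩ := hG.rank I'
    by_cases h0 : (0 : Fin (j + 1)) ∈ I
    · refine ⟨extOp W (1 - P) Q, Fin.cons 1 (fun i => extOp W (1 - P) (a i)), ?_, ?_⟩
      · rw [Fin.sum_univ_succ, Fin.cons_zero, one_mul, hp0, if_pos h0]
        have e1 : ∑ i : Fin j, (if i.succ ∈ I then (Fin.cons (1 : Module.End W.K (W.H (Y.prod R)))
            (fun i => extOp W (1 - P) (a i)) : Fin (j + 1) → Module.End W.K (W.H (Y.prod R)))
              i.succ * pr E' F' i.succ else 0) = extOp W (1 - P) (1 - Q) := by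
          rw [hQ, extOp_sum']
          refine Finset.sum_congr rfl fun i _ => ?_
          by_cases hi : i.succ ∈ I
          · rw [if_pos hi, if_pos ((hmem i).2 hi), Fin.cons_succ, hps, extOp_mul, mul_one]
          · rw [if_neg hi, if_neg (fun h' => hi ((hmem i).1 h')), extOp_zero_right]
        rw [e1]
        have e2 : extOp W (1 - P) (1 - Q) + extOp W (1 - P) Q = extOp W (1 - P) 1 := by
          rw [← extOp_add_right, sub_add_cancel]
        have e3 : extOp W (1 - P) (1 : Module.End W.K (W.H R)) + extOp W P 1 = 1 := by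
          rw [← extOp_add_left, sub_add_cancel, extOp_one]
        have e4 : (1 : Module.End W.K (W.H (Y.prod R))) =
            extOp W (1 - P) (1 - Q) + extOp W (1 - P) Q + extOp W P 1 := by
          rw [e2, e3]
        rw [sub_eq_iff_eq_add, e4]
        abel
      · refine (finrank_range_extOp _ _).trans ?_
        have e1 : Module.finrank W.K (LinearMap.range (1 - P)) + 2 =
            Module.finrank W.K (W.H Y) := h.finrank_compl
        rw [Fin.prod_univ_succ, if_pos h0, mul_assoc]
        refine Nat.mul_le_mul (by omega) (hn.trans (le_of_eq ?_))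
        congr 1
        refine Finset.prod_congr rfl fun i _ => ?_
        by_cases hi : i.succ ∈ I
        · rw [if_pos hi, if_pos ((hmem i).2 hi)]
        · rw [if_neg hi, if_neg (fun h' => hi ((hmem i).1 h'))]
    · refine ⟨extOp W 1 Q, Fin.cons 1 (fun i => extOp W 1 (a i)), ?_, ?_⟩
      · rw [Fin.sum_univ_succ, if_neg h0, zero_add]
        have e1 : ∑ i : Fin j, (if i.succ ∈ I then (Fin.cons (1 : Module.End W.K (W.H (Y.prod R)))
            (fun i => extOp W 1 (a i)) : Fin (j + 1) → Module.End W.K (W.H (Y.prod R)))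
              i.succ * pr E' F' i.succ else 0) = extOp W 1 (1 - Q) := by
          rw [hQ, extOp_sum']
          refine Finset.sum_congr rfl fun i _ => ?_
          by_cases hi : i.succ ∈ I
          · rw [if_pos hi, if_pos ((hmem i).2 hi), Fin.cons_succ, hps, extOp_mul, mul_one]
          · rw [if_neg hi, if_neg (fun h' => hi ((hmem i).1 h')), extOp_zero_right]
        rw [e1, sub_eq_iff_eq_add, ← extOp_add_right, sub_add_cancel, extOp_one]
      · refine (finrank_range_extOp _ _).trans ?_
        rw [Fin.prod_univ_succ, if_neg h0, mul_assoc]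
        refine Nat.mul_le_mul (Submodule.finrank_le _) (hn.trans (le_of_eq ?_))
        congr 1
        refine Finset.prod_congr rfl fun i _ => ?_
        by_cases hi : i.succ ∈ I
        · rw [if_pos hi, if_pos ((hmem i).2 hi)]
        · rw [if_neg hi, if_neg (fun h' => hi ((hmem i).1 h'))]

/-- **The families on the powers.** -/
theorem exists_gfam2 {s t u' : W.H Y} (h : IsPair W s t u') (Z : 𝒱.Obj) (j : ℕ) :
    ∃ E F : Fin j → Module.End W.K (W.H (powProd Y Z j)), GFam2 W s t u' (powProd Y Z j) j
      (Module.finrank W.K (W.H Z)) E F := by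
  induction j with
  | zero =>
    refine ⟨fun i => i.elim0, fun i => i.elim0, ⟨⟨fun i => i.elim0, fun i => i.elim0,
      fun i => i.elim0, fun i => i.elim0, fun i => i.elim0, fun i => i.elim0,
      fun i => i.elim0⟩, fun i => i.elim0, fun i => i.elim0,
      fun I => ⟨1, fun i => i.elim0, by rw [sub_self]; simp, ?_⟩⟩⟩
    rw [Finset.univ_eq_empty, Finset.prod_empty, one_mul]
    exact Submodule.finrank_le _
  | succ j ih =>
    obtain ⟨E, F, hG⟩ := ih
    exact gfam2_step h hG

variable {s t u' : W.H Y} {j n : ℕ} {E F : Fin j → Module.End W.K (W.H X)}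

/-- The dimensions of the parts. -/
lemma GFam2.cell_le (hG : GFam2 W s t u' X j n E F) (I : Finset (Fin j))
    (Q : Submodule W.K (W.H X)) :
    Module.finrank W.K (cell E F Finset.univ I Q) ≤
      (Module.finrank W.K (W.H Y) ^ I.card * (Module.finrank W.K (W.H Y) - 2) ^ (j - I.card)) *
        n := by
  obtain ⟨R, a, hR, hn⟩ := hG.rank Iᶜ
  have h1 : cell E F Finset.univ I Q ≤ LinearMap.range R := by
    rintro x ⟨-, -, hx⟩
    have h1 : (1 - R) x = 0 := by
      rw [hR, LinearMap.sum_apply]
      refine Finset.sum_eq_zero fun i _ => ?_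
      by_cases hi : i ∈ I
      · rw [if_neg (by simpa using hi), LinearMap.zero_apply]
      · rw [if_pos (by simpa using hi), Module.End.mul_apply, hx i (Finset.mem_univ i) hi,
          map_zero]
    rw [LinearMap.sub_apply, sub_eq_zero] at h1
    exact ⟨x, h1.symm⟩
  refine (Submodule.finrank_mono h1).trans (hn.trans (le_of_eq ?_))
  congr 1
  rw [Finset.prod_ite, Finset.prod_const, Finset.prod_const, mul_comm]
  congr 2
  · congr 1
    ext i
    simp
  · have e1 : (Finset.univ.filter fun i => i ∈ Iᶜ) = Iᶜ := by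
      ext i
      simp
    rw [e1, Finset.card_compl, Fintype.card_fin]

/-- The sum of the dimensions of the small parts. -/
lemma GFam2.sum_cell_le (hG : GFam2 W s t u' X j n E F) (h2 : 2 ≤ Module.finrank W.K (W.H Y))
    (Q : Submodule W.K (W.H X)) (m : ℕ) :
    ∑ I ∈ (Finset.univ : Finset (Fin j)).powerset.filter (fun I => I.card < m),
      Module.finrank W.K (cell E F Finset.univ I Q) ≤
        Module.finrank W.K (W.H Y) ^ m * (Module.finrank W.K (W.H Y) - 1) ^ j * n := by
  set h := Module.finrank W.K (W.H Y) with hh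
  have e1 := Finset.sum_pow_mul_eq_add_pow (1 : ℕ) (h - 2) (Finset.univ : Finset (Fin j))
  rw [Finset.card_univ, Fintype.card_fin, show 1 + (h - 2) = h - 1 by omega] at e1
  calc ∑ I ∈ (Finset.univ : Finset (Fin j)).powerset.filter (fun I => I.card < m),
      Module.finrank W.K (cell E F Finset.univ I Q)
      ≤ ∑ I ∈ (Finset.univ : Finset (Fin j)).powerset.filter (fun I => I.card < m),
        h ^ m * (1 ^ I.card * (h - 2) ^ (j - I.card)) * n := by
        refine Finset.sum_le_sum fun I hI => (hG.cell_le I Q).trans ?_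
        rw [one_pow, one_mul]
        refine Nat.mul_le_mul_right _ (Nat.mul_le_mul_right _ ?_)
        exact Nat.pow_le_pow_right (by omega) (Finset.mem_filter.1 hI).2.le
    _ ≤ ∑ I ∈ (Finset.univ : Finset (Fin j)).powerset,
        h ^ m * (1 ^ I.card * (h - 2) ^ (j - I.card)) * n :=
        Finset.sum_le_sum_of_subset (Finset.filter_subset _ _)
    _ = h ^ m * (h - 1) ^ j * n := by
        rw [← Finset.sum_mul, ← Finset.mul_sum, e1]

end Pool.Agent.U226.SR
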