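import Pool.Agent.N181.Gap.LinG
import Pool.Agent.U226.SR.Binom

/-!
# The kernel of a sum of commuting nilpotent operators
-/

set_option autoImplicit false

open Finset

namespace Pool.Agent.U226.SR

open Pool.Agent.N181.Gap

variable {K H ι : Type*} [Field K] [AddCommGroup H] [Module K H] [FiniteDimensional K H]

lemma finrank_map_add (L : Submodule K H) (g : Module.End K H) :
    Module.finrank K (L.map g) + Module.finrank K (L ⊓ LinearMap.ker g : Submodule K H) =
      Module.finrank K L := by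
  have h1 := LinearMap.finrank_range_add_finrank_ker (g ∘ₗ L.subtype)
  have h2 : LinearMap.range (g ∘ₗ L.subtype) = L.map g := by
    rw [LinearMap.range_comp, Submodule.range_subtype]
  have h3 : (LinearMap.ker (g ∘ₗ L.subtype)).map L.subtype = L ⊓ LinearMap.ker g := by
    ext x
    constructor
    · rintro ⟨⟨x, hx⟩, hx', rfl⟩
      exact ⟨hx, hx'⟩
    · rintro ⟨hx, hx'⟩
      exact ⟨⟨x, hx⟩, hx', rfl⟩
  rw [h2, ← Submodule.finrank_map_subtype_eq L, h3] at h1
  exact h1

section Step

variable {E F T : Module.End K H}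

omit [FiniteDimensional K H] in
lemma add_pow_succ_eq (hee : E * E = 0) (hc : E * T = T * E) (k : ℕ) :
    (E + T) ^ (k + 1) = T ^ (k + 1) + ((k : K) + 1) • (T ^ k * E) := by
  induction k with
  | zero => simp [add_comm]
  | succ k ih =>
    have hcp : ∀ n, E * T ^ n = T ^ n * E := fun n => (Commute.pow_right hc n).eq
    rw [pow_succ', ih, add_mul, mul_add, mul_add, hcp, mul_smul_comm, ← mul_assoc E, hcp,
      mul_assoc, hee, mul_zero, smul_zero, add_zero, ← pow_succ', mul_smul_comm, ← mul_assoc T,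
      ← pow_succ']
    push_cast
    rw [add_smul ((k : K) + 1) 1, one_smul]
    abel

/-- **The step.** -/
lemma ker_step [CharZero K] (hee : E * E = 0) (hefe : E * F * E = E)
    (hcE : E * T = T * E) (hcF : F * T = T * F) {Q : Submodule K H}
    (hP : ∀ x ∈ Q, E (F x) + F (E x) = x) (hE : ∀ x ∈ Q, E x ∈ Q) (hF : ∀ x ∈ Q, F x ∈ Q)
    (k : ℕ) :
    Module.finrank K (Q ⊓ LinearMap.ker ((E + T) ^ (k + 1)) : Submodule K H) ≤
      Module.finrank K (Q ⊓ LinearMap.ker E ⊓ LinearMap.ker (T ^ (k + 2)) : Submodule K H) +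
        Module.finrank K (Q ⊓ LinearMap.ker E ⊓ LinearMap.ker (T ^ k) : Submodule K H) := by
  have hcEp : ∀ n, E * T ^ n = T ^ n * E := fun n => (Commute.pow_right hcE n).eq
  have hcFp : ∀ n, F * T ^ n = T ^ n * F := fun n => (Commute.pow_right hcF n).eq
  set L := Q ⊓ LinearMap.ker ((E + T) ^ (k + 1)) with hL
  have hk : ((k : K) + 1) ≠ 0 := by exact_mod_cast Nat.succ_ne_zero k
  have hmem : ∀ x ∈ L, (T ^ (k + 1)) x = -(((k : K) + 1) • (T ^ k) (E x)) := by
    rintro x ⟨-, hx0⟩
    have hx : ((E + T) ^ (k + 1)) x = 0 := hx0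
    rw [add_pow_succ_eq hee hcE, LinearMap.add_apply,
      LinearMap.smul_apply, Module.End.mul_apply] at hx
    exact eq_neg_of_add_eq_zero_left hx
  have hTE : ∀ x ∈ L, (T ^ (k + 1)) (E x) = 0 := by
    intro x hx
    have h1 := congrArg E (hmem x hx)
    rw [← Module.End.mul_apply, hcEp, Module.End.mul_apply, map_neg, map_smul,
      ← Module.End.mul_apply E (T ^ k), hcEp, Module.End.mul_apply, ← Module.End.mul_apply E E,
      hee, LinearMap.zero_apply, map_zero, smul_zero, neg_zero] at h1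
    exact h1
  have hTa : ∀ x ∈ L, (T ^ (k + 1)) (E (F x)) = -(((k : K) + 1) • (T ^ k) (E x)) := by
    intro x hx
    have h1 : E (F ((T ^ (k + 1)) x)) = E (F (-(((k : K) + 1) • (T ^ k) (E x)))) := by
      rw [hmem x hx]
    rw [← Module.End.mul_apply F, hcFp, Module.End.mul_apply, ← Module.End.mul_apply E, hcEp,
      Module.End.mul_apply, map_neg, map_neg, map_smul, map_smul,
      ← Module.End.mul_apply F (T ^ k), hcFp, Module.End.mul_apply,
      ← Module.End.mul_apply E (T ^ k), hcEp, Module.End.mul_apply,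
      ← Module.End.mul_apply F E, ← Module.End.mul_apply E (F * E), ← mul_assoc, hefe] at h1
    exact h1
  have h1 := finrank_map_add L (E * F)
  have h2 : L.map (E * F) ≤ Q ⊓ LinearMap.ker E ⊓ LinearMap.ker (T ^ (k + 2)) := by
    rintro _ ⟨x, hx, rfl⟩
    refine ⟨⟨hE _ (hF _ hx.1), ?_⟩, ?_⟩
    · change E ((E * F) x) = 0
      rw [← Module.End.mul_apply, ← mul_assoc, hee, zero_mul,
        LinearMap.zero_apply]
    · change (T ^ (k + 2)) ((E * F) x) = 0
      rw [Module.End.mul_apply, pow_succ' T (k + 1), Module.End.mul_apply,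
        hTa x hx, map_neg, map_smul, ← Module.End.mul_apply T (T ^ k), ← pow_succ', hTE x hx,
        smul_zero, neg_zero]
  have h3 := finrank_map_add (L ⊓ LinearMap.ker (E * F)) E
  have h4 : (L ⊓ LinearMap.ker (E * F)).map E ≤ Q ⊓ LinearMap.ker E ⊓ LinearMap.ker (T ^ k) := by
    rintro _ ⟨x, ⟨hx, hx'⟩, rfl⟩
    refine ⟨⟨hE _ hx.1, ?_⟩, ?_⟩
    · change E (E x) = 0
      rw [← Module.End.mul_apply, hee, LinearMap.zero_apply]
    · have h5 := hTa x hx
      have h6 : E (F x) = 0 := hx'
      rw [h6, map_zero, eq_comm, neg_eq_zero, smul_eq_zero] at h5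
      exact h5.resolve_left hk
  have h5 : (L ⊓ LinearMap.ker (E * F)) ⊓ LinearMap.ker E = ⊥ := by
    rw [eq_bot_iff]
    rintro x ⟨⟨hx, hx'⟩, hx''⟩
    have h6 : E (F x) = 0 := hx'
    have h7 : E x = 0 := hx''
    rw [Submodule.mem_bot, ← hP x hx.1, h6, h7, map_zero, add_zero]
  rw [h5, finrank_bot, add_zero] at h3
  have h6 := Submodule.finrank_mono h2
  have h7 := Submodule.finrank_mono h4
  omega

/-- Half of the dimension. -/
lemma half_step {Q : Submodule K H}
    (hP : ∀ x ∈ Q, E (F x) + F (E x) = x) (hF : ∀ x ∈ Q, F x ∈ Q) :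
    2 * Module.finrank K (Q ⊓ LinearMap.ker E : Submodule K H) ≤ Module.finrank K Q := by
  have h1 := finrank_map_add (Q ⊓ LinearMap.ker E) F
  have h2 : (Q ⊓ LinearMap.ker E) ⊓ LinearMap.ker F = ⊥ := by
    rw [eq_bot_iff]
    rintro x ⟨⟨hx, hx'⟩, hx''⟩
    have h6 : E x = 0 := hx'
    have h7 : F x = 0 := hx''
    rw [Submodule.mem_bot, ← hP x hx, h6, h7, map_zero, map_zero, add_zero]
  rw [h2, finrank_bot, add_zero] at h1
  have h3 : (Q ⊓ LinearMap.ker E) ⊓ (Q ⊓ LinearMap.ker E).map F = ⊥ := by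
    rw [eq_bot_iff]
    rintro _ ⟨⟨-, hx'⟩, ⟨x, ⟨hx, hxE⟩, rfl⟩⟩
    have h6 : E x = 0 := hxE
    have h7 : E (F x) = 0 := hx'
    have h8 := hP x hx
    rw [h6, h7, map_zero, add_zero] at h8
    rw [Submodule.mem_bot, ← h8, map_zero]
  have h4 := Submodule.finrank_sup_add_finrank_inf_eq (Q ⊓ LinearMap.ker E)
    ((Q ⊓ LinearMap.ker E).map F)
  rw [h3, finrank_bot, add_zero] at h4
  have h5 : (Q ⊓ LinearMap.ker E) ⊔ (Q ⊓ LinearMap.ker E).map F ≤ Q := by
    refine sup_le inf_le_left ?_
    rintro _ ⟨x, hx, rfl⟩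
    exact hF x hx.1
  have h6 := Submodule.finrank_mono h5
  omega

end Step

/-- The part of `Q` on which the idempotents with the indices in `I` are the identity, and the
other idempotents vanish. -/
def cell (e f : ι → Module.End K H) (s I : Finset ι) (Q : Submodule K H) : Submodule K H where
  carrier := {x | x ∈ Q ∧ (∀ i ∈ I, pr e f i x = x) ∧ ∀ i ∈ s, i ∉ I → pr e f i x = 0}
  zero_mem' := ⟨Q.zero_mem, fun _ _ => map_zero _, fun _ _ _ => map_zero _⟩
  add_mem' := by
    rintro x y ⟨h1, h2, h3⟩ ⟨h1', h2', h3'⟩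
    exact ⟨Q.add_mem h1 h1', fun i hi => by rw [map_add, h2 i hi, h2' i hi],
      fun i hi hi' => by rw [map_add, h3 i hi hi', h3' i hi hi', add_zero]⟩
  smul_mem' := by
    rintro c x ⟨h1, h2, h3⟩
    exact ⟨Q.smul_mem c h1, fun i hi => by rw [map_smul, h2 i hi],
      fun i hi hi' => by rw [map_smul, h3 i hi hi', smul_zero]⟩

omit [FiniteDimensional K H] in
lemma mem_cell {e f : ι → Module.End K H} {s I : Finset ι} {Q : Submodule K H} {x : H} :
    x ∈ cell e f s I Q ↔
      x ∈ Q ∧ (∀ i ∈ I, pr e f i x = x) ∧ ∀ i ∈ s, i ∉ I → pr e f i x = 0 := Iff.rfl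

section Cells

variable {e f : ι → Module.End K H} (h : Rel e f) [DecidableEq ι]

omit [FiniteDimensional K H] [DecidableEq ι] in
include h in
lemma mem_range_pr {i : ι} {x : H} : x ∈ LinearMap.range (pr e f i) ↔ pr e f i x = x := by
  constructor
  · rintro ⟨y, rfl⟩
    rw [← Module.End.mul_apply, h.pr_idem]
  · intro hx
    exact ⟨x, hx⟩

omit [FiniteDimensional K H] in
lemma cell_insert_ker {s I : Finset ι} {a : ι} (ha : a ∉ s) (hI : I ⊆ s) (Q : Submodule K H) :
    cell e f (insert a s) I Q = cell e f s I (Q ⊓ LinearMap.ker (pr e f a)) := by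
  have haI : a ∉ I := fun h => ha (hI h)
  ext x
  rw [mem_cell, mem_cell, Submodule.mem_inf, LinearMap.mem_ker]
  constructor
  · rintro ⟨h1, h2, h3⟩
    exact ⟨⟨h1, h3 a (Finset.mem_insert_self _ _) haI⟩, h2,
      fun i hi hi' => h3 i (Finset.mem_insert_of_mem hi) hi'⟩
  · rintro ⟨⟨h1, h1'⟩, h2, h3⟩
    refine ⟨h1, h2, fun i hi hi' => ?_⟩
    rcases Finset.mem_insert.1 hi with rfl | hi
    · exact h1'
    · exact h3 i hi hi'

omit [FiniteDimensional K H] in
include h in
lemma cell_insert_range {s I : Finset ι} {a : ι} (ha : a ∉ s) (Q : Submodule K H) :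
    cell e f (insert a s) (insert a I) Q =
      cell e f s I (Q ⊓ LinearMap.range (pr e f a)) := by
  ext x
  rw [mem_cell, mem_cell, Submodule.mem_inf, mem_range_pr h]
  constructor
  · rintro ⟨h1, h2, h3⟩
    exact ⟨⟨h1, h2 a (Finset.mem_insert_self _ _)⟩,
      fun i hi => h2 i (Finset.mem_insert_of_mem hi),
      fun i hi hi' => h3 i (Finset.mem_insert_of_mem hi) (fun h' => by
        rcases Finset.mem_insert.1 h' with rfl | h'
        · exact ha hi
        · exact hi' h')⟩
  · rintro ⟨⟨h1, h1'⟩, h2, h3⟩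
    refine ⟨h1, fun i hi => ?_, fun i hi hi' => ?_⟩
    · rcases Finset.mem_insert.1 hi with rfl | hi
      · exact h1'
      · exact h2 i hi
    · rcases Finset.mem_insert.1 hi with rfl | hi
      · exact absurd (Finset.mem_insert_self _ _) hi'
      · exact h3 i hi (fun h' => hi' (Finset.mem_insert_of_mem h'))

include h in
/-- The sum of the dimensions of the parts. -/
lemma sum_cell (s : Finset ι) : ∀ (Q : Submodule K H), (∀ i ∈ s, ∀ x ∈ Q, e i x ∈ Q) →
    (∀ i ∈ s, ∀ x ∈ Q, f i x ∈ Q) →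
    ∑ I ∈ s.powerset, Module.finrank K (cell e f s I Q) = Module.finrank K Q := by
  induction s using Finset.induction_on with
  | empty =>
    intro Q _ _
    have h1 : cell e f ∅ ∅ Q = Q := by
      ext x
      simp [mem_cell]
    rw [Finset.powerset_empty, Finset.sum_singleton, h1]
  | insert a s ha ih =>
    intro Q he hf
    have hea := he a (Finset.mem_insert_self a s)
    have hfa := hf a (Finset.mem_insert_self a s)
    have hes : ∀ i ∈ s, ∀ x ∈ Q, e i x ∈ Q := fun i hi => he i (Finset.mem_insert_of_mem hi)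
    have hfs : ∀ i ∈ s, ∀ x ∈ Q, f i x ∈ Q := fun i hi => hf i (Finset.mem_insert_of_mem hi)
    have hpa : ∀ x ∈ Q, pr e f a x ∈ Q := fun x hx =>
      Submodule.add_mem _ (hea _ (hfa _ hx)) (hfa _ (hea _ hx))
    have hne : ∀ i ∈ s, i ≠ a := fun i hi hia => ha (hia ▸ hi)
    rw [Finset.sum_powerset_insert ha]
    have k1 := finrank_split2 (h.pr_idem a) hpa
    have k2 := ih (Q ⊓ LinearMap.ker (pr e f a)) (by
      rintro i hi x ⟨hx, hx'⟩
      refine ⟨hes i hi x hx, ?_⟩
      have hx'' : pr e f a x = 0 := hx'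
      change pr e f a (e i x) = 0
      rw [← Module.End.mul_apply, ← h.ce_pr (hne i hi), Module.End.mul_apply, hx'', map_zero]) (by
      rintro i hi x ⟨hx, hx'⟩
      refine ⟨hfs i hi x hx, ?_⟩
      have hx'' : pr e f a x = 0 := hx'
      change pr e f a (f i x) = 0
      rw [← Module.End.mul_apply, ← h.cf_pr (hne i hi), Module.End.mul_apply, hx'', map_zero])
    have k3 := ih (Q ⊓ LinearMap.range (pr e f a)) (by
      rintro i hi x ⟨hx, hx'⟩
      refine ⟨hes i hi x hx, (mem_range_pr h).2 ?_⟩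
      rw [← Module.End.mul_apply, ← h.ce_pr (hne i hi), Module.End.mul_apply,
        (mem_range_pr h).1 hx']) (by
      rintro i hi x ⟨hx, hx'⟩
      refine ⟨hfs i hi x hx, (mem_range_pr h).2 ?_⟩
      rw [← Module.End.mul_apply, ← h.cf_pr (hne i hi), Module.End.mul_apply,
        (mem_range_pr h).1 hx'])
    have e1 : ∑ I ∈ s.powerset, Module.finrank K (cell e f (insert a s) I Q) =
        ∑ I ∈ s.powerset, Module.finrank K (cell e f s I (Q ⊓ LinearMap.ker (pr e f a))) :=
      Finset.sum_congr rfl fun I hI => by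
        rw [cell_insert_ker ha (Finset.mem_powerset.1 hI)]
    have e2 : ∑ I ∈ s.powerset, Module.finrank K (cell e f (insert a s) (insert a I) Q) =
        ∑ I ∈ s.powerset, Module.finrank K (cell e f s I (Q ⊓ LinearMap.range (pr e f a))) :=
      Finset.sum_congr rfl fun I _ => by rw [cell_insert_range h ha]
    rw [e1, e2, k2, k3]
    omega

include h in
/-- **The kernels of the powers of the sum of the nilpotent operators.** -/
theorem ker_pow_le [CharZero K] (s : Finset ι) : ∀ (Q : Submodule K H),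
    (∀ i ∈ s, ∀ x ∈ Q, e i x ∈ Q) → (∀ i ∈ s, ∀ x ∈ Q, f i x ∈ Q) → ∀ k : ℕ,
    (Module.finrank K (Q ⊓ LinearMap.ker ((∑ i ∈ s, e i) ^ k) : Submodule K H) : ℝ) ≤
      ∑ I ∈ s.powerset, (win I.card k : ℝ) / 2 ^ I.card *
        Module.finrank K (cell e f s I Q) := by
  induction s using Finset.induction_on with
  | empty =>
    intro Q _ _ k
    have h1 : cell e f ∅ ∅ Q = Q := by
      ext x
      simp [mem_cell]
    rw [Finset.powerset_empty, Finset.sum_singleton, h1, Finset.card_empty, pow_zero, div_one,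
      Finset.sum_empty]
    rcases k with _ | k
    · have h2 : (Q ⊓ LinearMap.ker ((0 : Module.End K H) ^ 0) : Submodule K H) = ⊥ := by
        rw [pow_zero, eq_bot_iff]
        rintro x ⟨-, hx⟩
        exact hx
      rw [h2, finrank_bot, win_zero_right]
      simp
    · rw [win_zero_left, Nat.cast_one, one_mul]
      exact_mod_cast Submodule.finrank_mono inf_le_left
  | insert a s ha ih =>
    intro Q he hf k
    have hea := he a (Finset.mem_insert_self a s)
    have hfa := hf a (Finset.mem_insert_self a s)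
    have hes : ∀ i ∈ s, ∀ x ∈ Q, e i x ∈ Q := fun i hi => he i (Finset.mem_insert_of_mem hi)
    have hfs : ∀ i ∈ s, ∀ x ∈ Q, f i x ∈ Q := fun i hi => hf i (Finset.mem_insert_of_mem hi)
    have hpa : ∀ x ∈ Q, pr e f a x ∈ Q := fun x hx =>
      Submodule.add_mem _ (hea _ (hfa _ hx)) (hfa _ (hea _ hx))
    have hne : ∀ i ∈ s, i ≠ a := fun i hi hia => ha (hia ▸ hi)
    rcases k with _ | k
    · have h2 : (Q ⊓ LinearMap.ker ((∑ i ∈ insert a s, e i) ^ 0) : Submodule K H) = ⊥ := by
        rw [pow_zero, eq_bot_iff]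
        rintro x ⟨-, hx⟩
        exact hx
      rw [h2, finrank_bot, Nat.cast_zero]
      exact Finset.sum_nonneg fun I _ => by positivity
    set T := ∑ i ∈ insert a s, e i with hT
    set T' := ∑ i ∈ s, e i with hT'
    have hTT : T = e a + T' := Finset.sum_insert ha
    have hTe : e a * T' = T' * e a := by
      rw [hT', Finset.sum_mul, Finset.mul_sum]
      exact Finset.sum_congr rfl fun i hi => (h.cee i a (hne i hi)).symm
    have hTf : f a * T' = T' * f a := by
      rw [hT', Finset.sum_mul, Finset.mul_sum]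
      exact Finset.sum_congr rfl fun i hi => (h.cef i a (hne i hi)).symm
    have hTp : T' * pr e f a = pr e f a * T' := by
      rw [hT', Finset.sum_mul, Finset.mul_sum]
      exact Finset.sum_congr rfl fun i hi => h.ce_pr (hne i hi)
    have hTp' : T * pr e f a = pr e f a * T := by
      rw [hTT, add_mul, mul_add, hTp, h.e_pr, h.pr_e]
    have hTpk : T ^ (k + 1) * pr e f a = pr e f a * T ^ (k + 1) :=
      (Commute.pow_left hTp' (k + 1)).eq
    rw [Finset.sum_powerset_insert ha]
    have k1 := finrank_split2 (h.pr_idem a) (Q := Q ⊓ LinearMap.ker (T ^ (k + 1))) (by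
      rintro x ⟨hx, hx'⟩
      refine ⟨hpa x hx, ?_⟩
      have hx'' : (T ^ (k + 1)) x = 0 := hx'
      change (T ^ (k + 1)) (pr e f a x) = 0
      rw [← Module.End.mul_apply, hTpk, Module.End.mul_apply, hx'', map_zero])
    -- the part in the kernel of the idempotent
    have k2 := ih (Q ⊓ LinearMap.ker (pr e f a)) (by
      rintro i hi x ⟨hx, hx'⟩
      refine ⟨hes i hi x hx, ?_⟩
      have hx'' : pr e f a x = 0 := hx'
      change pr e f a (e i x) = 0
      rw [← Module.End.mul_apply, ← h.ce_pr (hne i hi), Module.End.mul_apply, hx'', map_zero]) (by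
      rintro i hi x ⟨hx, hx'⟩
      refine ⟨hfs i hi x hx, ?_⟩
      have hx'' : pr e f a x = 0 := hx'
      change pr e f a (f i x) = 0
      rw [← Module.End.mul_apply, ← h.cf_pr (hne i hi), Module.End.mul_apply, hx'', map_zero])
      (k + 1)
    have hpow : ∀ (n : ℕ) (x : H), pr e f a x = 0 → (T ^ n) x = (T' ^ n) x := by
      intro n
      induction n with
      | zero => intro x _; rfl
      | succ n ihn =>
        intro x hx
        have h5 : T x = T' x := by
          rw [hTT, LinearMap.add_apply, ← h.e_pr a, Module.End.mul_apply, hx, map_zero,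
            zero_add]
        rw [pow_succ, pow_succ, Module.End.mul_apply, Module.End.mul_apply, h5]
        apply ihn
        rw [← Module.End.mul_apply, ← hTp, Module.End.mul_apply, hx, map_zero]
    have e1 : (Q ⊓ LinearMap.ker (pr e f a) ⊓ LinearMap.ker (T' ^ (k + 1)) : Submodule K H) =
        Q ⊓ LinearMap.ker (T ^ (k + 1)) ⊓ LinearMap.ker (pr e f a) := by
      ext x
      constructor
      · rintro ⟨⟨h1, h2⟩, h3⟩
        refine ⟨⟨h1, ?_⟩, h2⟩
        have h3' : (T' ^ (k + 1)) x = 0 := h3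
        change (T ^ (k + 1)) x = 0
        rw [hpow _ _ h2, h3']
      · rintro ⟨⟨h1, h2⟩, h3⟩
        refine ⟨⟨h1, h3⟩, ?_⟩
        have h3' : (T ^ (k + 1)) x = 0 := h2
        change (T' ^ (k + 1)) x = 0
        rw [← hpow _ _ h3, h3']
    rw [e1] at k2
    -- the part in the range of the idempotent
    set Q1 := Q ⊓ LinearMap.range (pr e f a) with hQ1
    have hP1 : ∀ x ∈ Q1, e a (f a x) + f a (e a x) = x := by
      rintro x ⟨-, hx⟩
      exact (mem_range_pr h).1 hx
    have hE1 : ∀ x ∈ Q1, e a x ∈ Q1 := by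
      rintro x ⟨hx, -⟩
      refine ⟨hea x hx, (mem_range_pr h).2 ?_⟩
      rw [← Module.End.mul_apply, h.pr_e]
    have hF1 : ∀ x ∈ Q1, f a x ∈ Q1 := by
      rintro x ⟨hx, -⟩
      refine ⟨hfa x hx, (mem_range_pr h).2 ?_⟩
      rw [← Module.End.mul_apply, h.pr_f]
    have hes1 : ∀ i ∈ s, ∀ x ∈ Q1, e i x ∈ Q1 := by
      rintro i hi x ⟨hx, hx'⟩
      refine ⟨hes i hi x hx, (mem_range_pr h).2 ?_⟩
      rw [← Module.End.mul_apply, ← h.ce_pr (hne i hi), Module.End.mul_apply,
        (mem_range_pr h).1 hx']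
    have hfs1 : ∀ i ∈ s, ∀ x ∈ Q1, f i x ∈ Q1 := by
      rintro i hi x ⟨hx, hx'⟩
      refine ⟨hfs i hi x hx, (mem_range_pr h).2 ?_⟩
      rw [← Module.End.mul_apply, ← h.cf_pr (hne i hi), Module.End.mul_apply,
        (mem_range_pr h).1 hx']
    have k3 := ker_step (h.ee a) (h.efe a) hTe hTf hP1 hE1 hF1 k
    have e2 : (Q1 ⊓ LinearMap.ker ((e a + T') ^ (k + 1)) : Submodule K H) =
        Q ⊓ LinearMap.ker (T ^ (k + 1)) ⊓ LinearMap.range (pr e f a) := by
      rw [hQ1, ← hTT, inf_assoc, inf_assoc, inf_comm (LinearMap.range _)]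
    rw [e2] at k3
    have hM1 : ∀ i ∈ s, ∀ x ∈ Q1 ⊓ LinearMap.ker (e a), e i x ∈ Q1 ⊓ LinearMap.ker (e a) := by
      rintro i hi x ⟨hx, hx'⟩
      refine ⟨hes1 i hi x hx, ?_⟩
      have hx'' : e a x = 0 := hx'
      change e a (e i x) = 0
      rw [← Module.End.mul_apply, ← h.cee i a (hne i hi), Module.End.mul_apply, hx'', map_zero]
    have hM2 : ∀ i ∈ s, ∀ x ∈ Q1 ⊓ LinearMap.ker (e a), f i x ∈ Q1 ⊓ LinearMap.ker (e a) := by
      rintro i hi x ⟨hx, hx'⟩
      refine ⟨hfs1 i hi x hx, ?_⟩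
      have hx'' : e a x = 0 := hx'
      change e a (f i x) = 0
      rw [← Module.End.mul_apply, h.cef a i (hne i hi).symm, Module.End.mul_apply, hx'',
        map_zero]
    have k4 := ih (Q1 ⊓ LinearMap.ker (e a)) hM1 hM2 (k + 2)
    have k5 := ih (Q1 ⊓ LinearMap.ker (e a)) hM1 hM2 k
    have k6 : ∀ I ∈ s.powerset, 2 * (Module.finrank K
        (cell e f s I (Q1 ⊓ LinearMap.ker (e a))) : ℝ) ≤
          Module.finrank K (cell e f (insert a s) (insert a I) Q) := by
      intro I hI
      rw [cell_insert_range h ha]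
      have e3 : cell e f s I (Q1 ⊓ LinearMap.ker (e a)) =
          cell e f s I Q1 ⊓ LinearMap.ker (e a) := by
        ext x
        rw [Submodule.mem_inf, mem_cell, mem_cell, Submodule.mem_inf]
        constructor
        · rintro ⟨⟨h1, h2⟩, h3, h4⟩
          exact ⟨⟨h1, h3, h4⟩, h2⟩
        · rintro ⟨⟨h1, h3, h4⟩, h2⟩
          exact ⟨⟨h1, h2⟩, h3, h4⟩
      rw [e3]
      have k7 := half_step (E := e a) (F := f a) (Q := cell e f s I Q1)
        (fun x hx => hP1 x hx.1) (by
          rintro x ⟨h1, h2, h3⟩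
          refine ⟨hF1 x h1, fun i hi => ?_, fun i hi hi' => ?_⟩
          · have hia := hne i (Finset.mem_powerset.1 hI hi)
            rw [← Module.End.mul_apply, ← h.cf_pr hia.symm, Module.End.mul_apply, h2 i hi]
          · have hia := hne i hi
            rw [← Module.End.mul_apply, ← h.cf_pr hia.symm, Module.End.mul_apply, h3 i hi hi',
              map_zero])
      exact_mod_cast k7
    -- the conclusion
    have e4 : ∑ I ∈ s.powerset, (win I.card (k + 1) : ℝ) / 2 ^ I.card *
          Module.finrank K (cell e f (insert a s) I Q) =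
        ∑ I ∈ s.powerset, (win I.card (k + 1) : ℝ) / 2 ^ I.card *
          Module.finrank K (cell e f s I (Q ⊓ LinearMap.ker (pr e f a))) :=
      Finset.sum_congr rfl fun I hI => by
        rw [cell_insert_ker ha (Finset.mem_powerset.1 hI)]
    have k8 : ∑ I ∈ s.powerset, (win I.card (k + 2) : ℝ) / 2 ^ I.card *
          Module.finrank K (cell e f s I (Q1 ⊓ LinearMap.ker (e a))) +
        ∑ I ∈ s.powerset, (win I.card k : ℝ) / 2 ^ I.card *
          Module.finrank K (cell e f s I (Q1 ⊓ LinearMap.ker (e a))) ≤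
        ∑ I ∈ s.powerset, (win (insert a I).card (k + 1) : ℝ) / 2 ^ (insert a I).card *
          Module.finrank K (cell e f (insert a s) (insert a I) Q) := by
      rw [← Finset.sum_add_distrib]
      refine Finset.sum_le_sum fun I hI => ?_
      have haI : a ∉ I := fun h' => ha (Finset.mem_powerset.1 hI h')
      rw [Finset.card_insert_of_notMem haI, win_succ]
      have h7 := k6 I hI
      set d1 := (Module.finrank K (cell e f s I (Q1 ⊓ LinearMap.ker (e a))) : ℝ) with hd1
      set d2 := (Module.finrank K (cell e f (insert a s) (insert a I) Q) : ℝ) with hd2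
      have h8 : (0 : ℝ) ≤ ((win I.card (k + 2) + win I.card k : ℕ) : ℝ) / 2 ^ (I.card + 1) := by
        positivity
      calc (win I.card (k + 2) : ℝ) / 2 ^ I.card * d1 + (win I.card k : ℝ) / 2 ^ I.card * d1
          = ((win I.card (k + 2) + win I.card k : ℕ) : ℝ) / 2 ^ (I.card + 1) * (2 * d1) := by
            push_cast
            rw [pow_succ]
            field_simp
        _ ≤ _ := mul_le_mul_of_nonneg_left h7 h8
    rw [e4]
    have k9 : (Module.finrank K (Q ⊓ LinearMap.ker (T ^ (k + 1)) ⊓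
        LinearMap.range (pr e f a) : Submodule K H) : ℝ) ≤
        Module.finrank K (Q1 ⊓ LinearMap.ker (e a) ⊓ LinearMap.ker (T' ^ (k + 2)) :
          Submodule K H) +
        Module.finrank K (Q1 ⊓ LinearMap.ker (e a) ⊓ LinearMap.ker (T' ^ k) :
          Submodule K H) := by exact_mod_cast k3
    have k10 : (Module.finrank K (Q ⊓ LinearMap.ker (T ^ (k + 1)) : Submodule K H) : ℝ) =
        Module.finrank K (Q ⊓ LinearMap.ker (T ^ (k + 1)) ⊓
          LinearMap.range (pr e f a) : Submodule K H) +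
        Module.finrank K (Q ⊓ LinearMap.ker (T ^ (k + 1)) ⊓
          LinearMap.ker (pr e f a) : Submodule K H) := by exact_mod_cast k1.symm
    rw [k10]
    linarith

end Cells

end Pool.Agent.U226.SR
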