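import Pool.Agent.N181.Gap.RealG

/-!
# Real estimates
-/

set_option autoImplicit false

open Filter Topology

namespace Pool.Agent.U226.SR

open Pool.Agent.N181.Gap

lemma exists_N (q : ℕ) (hq : 1 ≤ q) : ∃ N : ℕ, 0 < N ∧ 2 * (q * (q - 1) ^ N) ≤ q ^ N := by
  have hq0 : (0 : ℝ) < q := by exact_mod_cast hq
  have h1 : ((q : ℝ) - 1) / q < 1 := by rw [div_lt_one hq0]; linarith
  have h0 : 0 ≤ ((q : ℝ) - 1) / q := by
    apply div_nonneg _ hq0.le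
    have : (1 : ℝ) ≤ q := by exact_mod_cast hq
    linarith
  obtain ⟨N, hN⟩ := exists_pow_lt_of_lt_one (show (0 : ℝ) < 1 / (2 * q) by positivity) h1
  refine ⟨N + 1, Nat.succ_pos N, ?_⟩
  have h2 : (((q : ℝ) - 1) / q) ^ (N + 1) ≤ 1 / (2 * q) :=
    (pow_le_pow_of_le_one h0 h1.le (Nat.le_succ N)).trans hN.le
  rw [div_pow, div_le_div_iff₀ (by positivity) (by positivity), one_mul] at h2
  have h3 : ((q - 1 : ℕ) : ℝ) = (q : ℝ) - 1 := by
    rw [Nat.cast_sub hq, Nat.cast_one]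
  have h4 : ((2 * (q * (q - 1) ^ (N + 1)) : ℕ) : ℝ) ≤ ((q ^ (N + 1) : ℕ) : ℝ) := by
    push_cast
    rw [h3]
    linarith
  exact_mod_cast h4

lemma pow_bound {q N : ℕ} (hN : 2 * (q * (q - 1) ^ N) ≤ q ^ N) (j : ℕ) :
    2 ^ (j / N) * (q ^ (j / N) * (q - 1) ^ j) ≤ q ^ j := by
  conv_lhs => rw [← Nat.div_add_mod j N]
  conv_rhs => rw [← Nat.div_add_mod j N]
  set a := j / N with ha
  set r := j % N with hr
  have e1 : (N * a + r) / N = a := by rw [ha, hr, Nat.div_add_mod]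
  rw [e1, pow_add, pow_add]
  calc 2 ^ a * (q ^ a * ((q - 1) ^ (N * a) * (q - 1) ^ r))
      = (2 * (q * (q - 1) ^ N)) ^ a * (q - 1) ^ r := by
        rw [mul_pow, mul_pow, ← pow_mul]; ring
    _ ≤ (q ^ N) ^ a * q ^ r := Nat.mul_le_mul (Nat.pow_le_pow_left hN a)
        (Nat.pow_le_pow_left (Nat.sub_le q 1) r)
    _ = q ^ (N * a) * q ^ r := by rw [← pow_mul]

/-- The final estimate. -/
lemma sqrt_bound {M : ℕ} (hM : 0 < M) (D : ℕ) :
    ∃ C : ℝ, 0 ≤ C ∧ ∀ J : ℕ,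
      1 / Real.sqrt ((J / M : ℕ) + 1) + (D : ℝ) * (((J : ℝ) + 1) ^ D / 2 ^ (J / M)) ≤
        C / Real.sqrt (J + 1) := by
  obtain ⟨C, θ, hC, hθ0, hθ1, hb⟩ := error_bound (lam := 1 / 2) (by norm_num) (by norm_num)
    hM (D + 1) (c := (D : ℝ)) (by positivity)
  refine ⟨Real.sqrt M + C, by positivity, fun J => ?_⟩
  have hJ : (0 : ℝ) < (J : ℝ) + 1 := by positivity
  have hs : 0 < Real.sqrt ((J : ℝ) + 1) := Real.sqrt_pos.2 hJ
  rw [add_div]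
  apply add_le_add
  · rw [div_le_div_iff₀ (Real.sqrt_pos.2 (by positivity)) hs, one_mul, ← Real.sqrt_mul
      (by positivity)]
    apply Real.sqrt_le_sqrt
    have h1 := Nat.lt_succ_iff.1 (Nat.lt_succ_of_lt (Nat.lt_mul_div_succ J hM))
    have h2 : J + 1 ≤ M * (J / M + 1) := Nat.lt_mul_div_succ J hM
    exact_mod_cast h2
  · rw [le_div_iff₀ hs]
    have h1 := hb J
    have h2 : θ ^ J ≤ 1 := pow_le_one₀ hθ0 hθ1.le
    have h3 : Real.sqrt ((J : ℝ) + 1) ≤ (J : ℝ) + 1 := by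
      rw [Real.sqrt_le_left hJ.le]
      nlinarith
    calc (D : ℝ) * (((J : ℝ) + 1) ^ D / 2 ^ (J / M)) * Real.sqrt ((J : ℝ) + 1)
        ≤ (D : ℝ) * (((J : ℝ) + 1) ^ D / 2 ^ (J / M)) * ((J : ℝ) + 1) :=
          mul_le_mul_of_nonneg_left h3 (by positivity)
      _ = (D : ℝ) * (((J : ℝ) + 1) ^ (D + 1) * (1 / 2) ^ (J / M)) := by
          rw [one_div, inv_pow, pow_succ ((J : ℝ) + 1) D]
          ring
      _ ≤ C * θ ^ J := h1
      _ ≤ C := by nlinarith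

end Pool.Agent.U226.SR
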