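import Pool.Agent.U226.SR.Core2
import Pool.Agent.U226.SR.Real
import Pool.Agent.N181.Gap.Final

/-!
# The square root law
-/

set_option autoImplicit false

open CategoryTheory AlgebraicGeometry TensorProduct

universe u v

namespace Pool.Agent.U226.SR

open Pool.Agent.H914 Pool.Agent.H914.VarClass Pool.Agent.H914.VarClass.Obj
  Pool.Agent.H914.WeilCohomology Pool.Agent.W534 Pool.Agent.TH132.P Pool.Agent.N181.Mod
  Pool.Agent.N181.Gap

variable {k : Type u} [Field k] {𝒱 : VarClass k} {ops : CycleOps 𝒱}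
  {W : WeilCohomology.{u, v} ops} {U X Y Z Z' S : 𝒱.Obj} {p : ℕ}

/-- **The square root law**, for a system of classes of sufficient growth. -/
theorem sqrt_law (𝒮 : ClSys W) (n : ℕ) (hF : FailsD W (powProd Y Y n)) (Z : 𝒱.Obj) (D : ℕ)
    (hgrow : ∀ J : ℕ, Module.finrank W.K (W.H Z) * Module.finrank W.K (W.H Y) ^ J ≤
      D * ((J + 1) ^ D * Module.finrank W.K (tot 𝒮.toSys (powProd Y Z J)))) :
    ∃ C : ℝ, 0 ≤ C ∧ ∀ J : ℕ, (rkSum ops (powProd Y Z J) : ℝ) ≤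
      C / Real.sqrt (J + 1) * Module.finrank W.K (tot 𝒮.toSys (powProd Y Z J)) := by
  set m := n + 1 with hm
  set h := Module.finrank W.K (W.H Y) with hh
  have hh' : Module.finrank W.K (W.H (powProd Y Y n)) = h ^ m := by
    rw [finrank_H_pow, hm, pow_succ]
  have hq1 : 1 ≤ h ^ m := by
    obtain ⟨t, -, ht0⟩ := (Submodule.ne_bot_iff _).1 hF
    rw [← hh', Nat.succ_le_iff, Module.finrank_pos_iff]
    exact ⟨t, 0, ht0⟩
  obtain ⟨N, hN, hqN⟩ := exists_N (h ^ m) hq1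
  set M := m * N with hM
  have hM0 : 0 < M := Nat.mul_pos (Nat.succ_pos n) hN
  obtain ⟨C, hC, hb⟩ := sqrt_bound hM0 D
  refine ⟨C, hC, fun J => ?_⟩
  set P := Module.finrank W.K (tot 𝒮.toSys (powProd Y Z J)) with hP
  set R := rkSum ops (powProd Y Z J) with hR
  set hz := Module.finrank W.K (W.H Z) with hhz
  set a := J / m / N with ha
  have haM : a = J / M := Nat.div_div_eq_div_mul J m N
  -- the inequality
  have hgap : (R : ℝ) ≤ 1 / Real.sqrt (a + 1) * P +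
      (((h ^ m) ^ a * (h ^ m - 1) ^ (J / m) * (h ^ (J % m) * hz) : ℕ) : ℝ) := by
    have h1 := gapD 𝒮 hF (powProd Y Z (J % m)) (J / m) a
    have h2 := isoc_powpow Y (powProd Y Z (J % m)) n (J / m)
    rw [powProd_add, ← hm, Nat.div_add_mod J m] at h2
    rw [h2.rkSum W, hh', finrank_H_pow, h2.finrank_tot 𝒮.toSys] at h1
    exact h1
  have herr : 2 ^ a * ((h ^ m) ^ a * (h ^ m - 1) ^ (J / m) * (h ^ (J % m) * hz)) ≤
      hz * h ^ J := by
    have h1 := pow_bound hqN (J / m)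
    calc 2 ^ a * ((h ^ m) ^ a * (h ^ m - 1) ^ (J / m) * (h ^ (J % m) * hz))
        = (2 ^ a * ((h ^ m) ^ a * (h ^ m - 1) ^ (J / m))) * (h ^ (J % m) * hz) := by ring
      _ ≤ (h ^ m) ^ (J / m) * (h ^ (J % m) * hz) := Nat.mul_le_mul_right _ h1
      _ = hz * h ^ J := by
          rw [← pow_mul, ← mul_assoc, ← pow_add, Nat.div_add_mod, mul_comm]
  have herr2 : (((h ^ m) ^ a * (h ^ m - 1) ^ (J / m) * (h ^ (J % m) * hz) : ℕ) : ℝ) ≤
      (D : ℝ) * (((J : ℝ) + 1) ^ D / 2 ^ a) * P := by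
    have h1 := herr.trans (hgrow J)
    have h2 : (2 : ℝ) ^ a * (((h ^ m) ^ a * (h ^ m - 1) ^ (J / m) * (h ^ (J % m) * hz) : ℕ) : ℝ) ≤
        D * (((J : ℝ) + 1) ^ D * P) := by exact_mod_cast h1
    have h3 : (0 : ℝ) < 2 ^ a := by positivity
    rw [mul_comm, ← le_div_iff₀ h3] at h2
    refine h2.trans (le_of_eq ?_)
    ring
  have hbJ := hb J
  rw [← haM] at hbJ
  calc (R : ℝ) ≤ 1 / Real.sqrt (a + 1) * P +
        (((h ^ m) ^ a * (h ^ m - 1) ^ (J / m) * (h ^ (J % m) * hz) : ℕ) : ℝ) := hgap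
    _ ≤ 1 / Real.sqrt (a + 1) * P + (D : ℝ) * (((J : ℝ) + 1) ^ D / 2 ^ a) * P := by linarith
    _ = (1 / Real.sqrt (a + 1) + (D : ℝ) * (((J : ℝ) + 1) ^ D / 2 ^ a)) * P := by ring
    _ ≤ C / Real.sqrt (J + 1) * P := mul_le_mul_of_nonneg_right hbJ (by positivity)

/-- The growth of the number of generalised Tate classes. -/
lemma growT (Φ : FrobSystem W p) {σ : W.K →+* ℂ} [IsAlgClosed W.K] (hp : 1 < p)
    (hRH : ∀ Z : 𝒱.Obj, RiemannHyp Φ σ Z) (Y Z : 𝒱.Obj) (hY1 : (1 : W.H Y) ≠ 0) :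
    ∃ D : ℕ, ∀ J : ℕ, Module.finrank W.K (W.H Z) * Module.finrank W.K (W.H Y) ^ J ≤
      D * ((J + 1) ^ D * Module.finrank W.K (tot (sysT Φ) (powProd Y Z J))) := by
  set h := Module.finrank W.K (W.H Y) with hh
  set hz := Module.finrank W.K (W.H Z) with hhz
  have hh0 : 0 < h := by
    rw [hh, Module.finrank_pos_iff]
    exact ⟨1, 0, hY1⟩
  by_cases hZ1 : (1 : W.H Z) = 0
  · have hz0 : hz = 0 := by
      have h2 : ∀ x : W.H Z, x = 0 := fun x => by rw [← one_mul x, hZ1, zero_mul]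
      rw [hhz, Module.finrank_zero_iff]
      exact ⟨fun a b => by rw [h2 a, h2 b]⟩
    refine ⟨0, fun J => ?_⟩
    rw [hz0, zero_mul]
    exact Nat.zero_le _
  refine ⟨hz * h + h, fun J => ?_⟩
  set P := Module.finrank W.K (tot (sysT Φ) (powProd Y Z J)) with hP
  have h1 := growth Φ hp hRH Y Z hZ1 (J / 2)
  have h2 : Module.finrank W.K (tot (sysT Φ) (powProd Y Z (J / 2 + J / 2))) ≤ P := by
    rcases Nat.even_or_odd' J with ⟨N, hN | hN⟩
    · rw [hP, show J / 2 + J / 2 = J by omega]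
    · have h3 := finrank_tot_prod (sysT Φ) hY1 (powProd Y Z (J / 2 + J / 2))
      have h4 : Y.prod (powProd Y Z (J / 2 + J / 2)) = powProd Y Z J := by
        conv_rhs => rw [show J = (J / 2 + J / 2) + 1 by omega]
        rfl
      rw [h4] at h3
      exact h3
  have h5 : h ^ J ≤ h * (h ^ (J / 2)) ^ 2 := by
    rw [← pow_mul, ← pow_succ']
    exact Nat.pow_le_pow_right hh0 (by omega)
  have h6 : h ^ J ≤ h * ((J + 1) ^ h * P) := by
    refine h5.trans (Nat.mul_le_mul_left _ (h1.trans ?_))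
    refine Nat.mul_le_mul (Nat.pow_le_pow_left (by omega) _) h2
  calc hz * h ^ J ≤ hz * (h * ((J + 1) ^ h * P)) := Nat.mul_le_mul_left _ h6
    _ = (hz * h) * ((J + 1) ^ h * P) := by ring
    _ ≤ (hz * h + h) * ((J + 1) ^ (hz * h + h) * P) := by
        refine Nat.mul_le_mul (Nat.le_add_right _ _) (Nat.mul_le_mul_right _ ?_)
        exact Nat.pow_le_pow_right (Nat.succ_pos J) (Nat.le_add_left _ _)

/-- **The square root law for the poles.** -/
theorem main_sqrt (W : WeilCohomology.{u, v} ops) [IsAlgClosed W.K] (σ : W.K →+* ℂ) (p : ℕ)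
    (hp : p.Prime) (Φ : FrobSystem W p) (hRH : ∀ Z : 𝒱.Obj, RiemannHyp Φ σ Z) (Y : 𝒱.Obj) :
    (∀ n, HomEqNum W (powProd Y Y n)) ∨
    ∀ Z : 𝒱.Obj, ∃ C : ℝ, 0 ≤ C ∧ ∀ n : ℕ, ∃ P : ℕ,
      PoleSum Φ σ (powProd Y Z n) P ∧
      (rkSum ops (powProd Y Z n) : ℝ) ≤ C / Real.sqrt (n + 1) * P := by
  by_cases hall : ∀ n, HomEqNum W (powProd Y Y n)
  · exact Or.inl hall
  right
  push Not at hall
  obtain ⟨n, hn⟩ := hall
  have hF : FailsD W (powProd Y Y n) := by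
    by_contra hcon
    exact hn (homEqNum_of hcon)
  intro Z
  have hY1 : (1 : W.H Y) ≠ 0 := by
    intro h0
    have h2 : (1 : W.H (powProd Y Y n)) = 0 := by
      rcases n with _ | n
      · exact h0
      · change (1 : W.H (Y.prod (powProd Y Y n))) = 0
        rw [← map_one (W.map (fst Y (powProd Y Y n))), h0, map_zero]
    obtain ⟨t, -, ht0⟩ := (Submodule.ne_bot_iff _).1 hF
    exact ht0 (by rw [← one_mul t, h2, zero_mul])
  obtain ⟨D, hD⟩ := growT Φ hp.one_lt hRH Y Z hY1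
  obtain ⟨C, hC, hb⟩ := sqrt_law (clT Φ) n hF Z D hD
  exact ⟨C, hC, fun J => ⟨_, poleSum_tot Φ hp.one_lt (hRH _), hb J⟩⟩

end Pool.Agent.U226.SR
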